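import Pool.Agent.SpU.BinomLe

/-!
# SpU/Arith

Asymptotics.  All divisions in the exponents are divisions in `ℕ`.

`binom_le` is in BinomLe.

`final_arith`: put `t = Nat.log 2 n`; `2^t ≤ n < 2^(t+1)`, `t log 2 ≤ log n ≤ (t+1) log 2`,
`u^3 ≤ t < (u+1)^3 ≤ 8u^3`, `c = (log 2)/(144A)`, `M = (u^4+1)^(2u^2)`.
Right side: log ≥ `c n / t - (t+1)`.
Left side: `δ n / log n ≤ (c/4) n/t`; `log(n+1) ≤ t+1`; `(n/(2t^2)) log 2 ≤ (c/4) n/t`;
`M log(n+1) ≤ M (t+1)`, `3 M (t+1) ≤ (c/4) n/t` since `M² ≤ 2^t`, `(12 (t+1) t/c)² ≤ 2^t`;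
`(2An/u^4)(1+log(1+u^4)) ≤ (16 A n/t) (1+log(1+u^4))/u ≤ (c/4) n/t`.
-/

namespace Pool.SpU

open Finset Filter Topology

private theorem arith_pow : ∀ᶠ u : ℕ in atTop, (u ^ 4 + 1) ^ (4 * u ^ 2) ≤ 2 ^ (u ^ 3) := by
  have h1 := tendsto_pow_const_div_const_pow_of_one_lt 16 (one_lt_two (α := ℝ))
  have h2 := h1.eventually (gt_mem_nhds (show (0 : ℝ) < 1 / 16 by norm_num))
  filter_upwards [h2, eventually_ge_atTop 1] with u hu hu1
  have h3 : (16 : ℝ) * (u : ℝ) ^ 16 ≤ 2 ^ u := by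
    rw [div_lt_iff₀ (by positivity)] at hu
    linarith
  have h4 : 16 * u ^ 16 ≤ 2 ^ u := by exact_mod_cast h3
  have h5 : (u ^ 4 + 1) ^ 4 ≤ 2 ^ u := by
    refine le_trans ?_ h4
    have h6 : u ^ 4 + 1 ≤ 2 * u ^ 4 := by
      have : 1 ≤ u ^ 4 := Nat.one_le_pow _ _ hu1
      omega
    calc (u ^ 4 + 1) ^ 4 ≤ (2 * u ^ 4) ^ 4 := Nat.pow_le_pow_left h6 4
      _ = 16 * u ^ 16 := by ring
  calc (u ^ 4 + 1) ^ (4 * u ^ 2) = ((u ^ 4 + 1) ^ 4) ^ (u ^ 2) := by rw [← pow_mul]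
    _ ≤ (2 ^ u) ^ (u ^ 2) := Nat.pow_le_pow_left h5 _
    _ = 2 ^ (u ^ 3) := by rw [← pow_mul]; congr 1; ring

private theorem arith_t (c : ℝ) (hc : 0 < c) : ∀ᶠ t : ℕ in atTop, (12 * ((t : ℝ) + 1) * t / c) ^ 2 ≤ 2 ^ t := by
  have h1 := tendsto_pow_const_div_const_pow_of_one_lt 4 (one_lt_two (α := ℝ))
  have h2 := h1.eventually (gt_mem_nhds (show (0 : ℝ) < c ^ 2 / 576 by positivity))
  filter_upwards [h2, eventually_ge_atTop 1] with t ht ht1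
  have ht1' : (1 : ℝ) ≤ t := by exact_mod_cast ht1
  rw [div_lt_iff₀ (by positivity)] at ht
  have h3 : 12 * ((t : ℝ) + 1) * t ≤ 24 * t ^ 2 := by nlinarith
  have h4 : (12 * ((t : ℝ) + 1) * t) ^ 2 ≤ (24 * (t : ℝ) ^ 2) ^ 2 := pow_le_pow_left₀ (by positivity) h3 2
  rw [div_pow, div_le_iff₀ (by positivity)]
  nlinarith

private theorem arith_log (ε : ℝ) (hε : 0 < ε) : ∀ᶠ u : ℕ in atTop, 1 + Real.log (1 + (u : ℝ) ^ 4) ≤ ε * u := by
  have h1 : Tendsto (fun u : ℕ => Real.log ((u : ℝ) + 1) ^ 1 / (1 * ((u : ℝ) + 1) + 0)) atTop (𝓝 0) :=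
    (Real.tendsto_pow_log_div_mul_add_atTop 1 0 1 one_ne_zero).comp
      (tendsto_natCast_atTop_atTop.atTop_add tendsto_const_nhds)
  have h2 := h1.eventually (gt_mem_nhds (show (0 : ℝ) < ε / 16 by positivity))
  have h3 : ∀ᶠ u : ℕ in atTop, 2 / ε ≤ (u : ℝ) := tendsto_natCast_atTop_atTop.eventually_ge_atTop _
  filter_upwards [h2, h3, eventually_ge_atTop 1] with u hu hu2 hu1
  have hu1' : (1 : ℝ) ≤ u := by exact_mod_cast hu1
  rw [pow_one, one_mul, add_zero, div_lt_iff₀ (by positivity)] at hu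
  have h4 : Real.log (1 + (u : ℝ) ^ 4) ≤ 4 * Real.log ((u : ℝ) + 1) := by
    have : (4 : ℝ) * Real.log ((u : ℝ) + 1) = Real.log (((u : ℝ) + 1) ^ 4) := by
      rw [Real.log_pow]; norm_num
    rw [this]
    refine Real.log_le_log (by positivity) ?_
    nlinarith [pow_pos (show (0 : ℝ) < u by linarith) 2, pow_pos (show (0 : ℝ) < u by linarith) 3]
  rw [div_le_iff₀ hε] at hu2
  nlinarith

private theorem arith_nat_div (a b : ℕ) (hb : 0 < b) : (a : ℝ) / b - 1 ≤ ((a / b : ℕ) : ℝ) := by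
  have h1 : a < (a / b + 1) * b := by
    have := Nat.div_add_mod a b
    have h2 := Nat.mod_lt a hb
    nlinarith
  have h3 : (a : ℝ) < (((a / b : ℕ) : ℝ) + 1) * b := by exact_mod_cast h1
  have hb' : (0 : ℝ) < b := by exact_mod_cast hb
  rw [sub_le_iff_le_add, div_le_iff₀ hb']
  exact h3.le

/-- the real inequality -/
private theorem arith_main {A n t u : ℕ} (hA : 1 ≤ A) (h2t : 2 ^ t ≤ n) (hnt : n < 2 ^ (t + 1))
    (hut : u ^ 3 ≤ t) (htu : t < (u + 1) ^ 3) (hu1 : 1 ≤ u) (c : ℝ) (hc : c = Real.log 2 / (144 * A))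
    (hM : (u ^ 4 + 1) ^ (4 * u ^ 2) ≤ 2 ^ (u ^ 3)) (ht : (12 * ((t : ℝ) + 1) * t / c) ^ 2 ≤ 2 ^ t)
    (hlog : 1 + Real.log (1 + (u : ℝ) ^ 4) ≤ c / (64 * A) * u) (htA : 288 * A ≤ t) (hnA : 40 * A ≤ n) :
    (c * Real.log 2 / 4) * n / Real.log n + (((t : ℝ) + 1) + ((n / (2 * t ^ 2 + 7 * t + 9) : ℕ) : ℝ) * Real.log 2 +
      ((((u ^ 4 + 1) ^ (2 * u ^ 2) : ℕ) : ℝ) * ((t : ℝ) + 1) +
        2 * A * n / (u : ℝ) ^ 4 * (1 + Real.log (1 + (u : ℝ) ^ 4)))) ≤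
      (((n / (4 * A) - 4) / (2 * t ^ 2 + 7 * t + 9) : ℕ) : ℝ) * Real.log n := by
  have hl2 : 0 < Real.log 2 := Real.log_pos (by norm_num)
  have hl2' : Real.log 2 ≤ 1 := by have := Real.log_two_lt_d9; linarith
  have hA' : (1 : ℝ) ≤ A := by exact_mod_cast hA
  have hc0 : 0 < c := by rw [hc]; positivity
  have ht288 : (288 : ℝ) * A ≤ t := by exact_mod_cast htA
  have ht1 : (1 : ℝ) ≤ t := by linarith
  have ht0 : (0 : ℝ) < t := by linarith
  have hu1' : (1 : ℝ) ≤ u := by exact_mod_cast hu1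
  have hu0 : (0 : ℝ) < u := by linarith
  have hn0 : 0 < n := by omega
  have hn0' : (0 : ℝ) < n := by exact_mod_cast hn0
  have h2t' : (2 : ℝ) ^ t ≤ n := by exact_mod_cast h2t
  -- logarithms
  have hL1 : (t : ℝ) * Real.log 2 ≤ Real.log n := by
    rw [← Real.log_pow]
    exact Real.log_le_log (by positivity) h2t'
  have hL2 : Real.log n ≤ t + 1 := by
    have h1 : Real.log n ≤ Real.log ((2 : ℝ) ^ (t + 1)) :=
      Real.log_le_log hn0' (by exact_mod_cast hnt.le)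
    rw [Real.log_pow] at h1
    push_cast at h1
    nlinarith
  have hLpos : 0 < Real.log n := lt_of_lt_of_le (by positivity) hL1
  -- the four error terms
  have e1 : (c * Real.log 2 / 4) * n / Real.log n ≤ c / 4 * (n / t) := by
    rw [div_le_iff₀ hLpos]
    calc c * Real.log 2 / 4 * n = c / 4 * (n / t) * (t * Real.log 2) := by field_simp
      _ ≤ c / 4 * (n / t) * Real.log n := mul_le_mul_of_nonneg_left hL1 (by positivity)
  have e3 : ((n / (2 * t ^ 2 + 7 * t + 9) : ℕ) : ℝ) * Real.log 2 ≤ c / 4 * (n / t) := by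
    have h1 : ((n / (2 * t ^ 2 + 7 * t + 9) : ℕ) : ℝ) ≤ (n : ℝ) / (2 * t ^ 2) := by
      have h2 := @Nat.cast_div_le ℝ _ _ _ n (2 * t ^ 2 + 7 * t + 9)
      refine h2.trans (div_le_div_of_nonneg_left hn0'.le (by positivity) ?_)
      push_cast
      nlinarith
    have h3 : (n : ℝ) / (2 * t ^ 2) * Real.log 2 ≤ c / 4 * (n / t) := by
      have h4 : Real.log 2 / (2 * t) ≤ c / 4 := by
        rw [hc, div_le_iff₀ (by positivity)]
        have h5 : Real.log 2 / (144 * A) / 4 * (2 * t) = Real.log 2 * (t / (288 * A)) := by field_simp; ring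
        rw [h5]
        have h6 : 1 ≤ (t : ℝ) / (288 * A) := (one_le_div (by positivity)).mpr ht288
        nlinarith
      calc (n : ℝ) / (2 * t ^ 2) * Real.log 2 = (Real.log 2 / (2 * t)) * (n / t) := by field_simp
        _ ≤ c / 4 * (n / t) := mul_le_mul_of_nonneg_right h4 (by positivity)
    exact (mul_le_mul_of_nonneg_right h1 hl2.le).trans h3
  have e5 : 2 * A * n / (u : ℝ) ^ 4 * (1 + Real.log (1 + (u : ℝ) ^ 4)) ≤ c / 4 * (n / t) := by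
    have h1 : (t : ℝ) ≤ 8 * u ^ 3 := by
      have h2 : t ≤ 8 * u ^ 3 := by
        have h3 : (u + 1) ^ 3 ≤ (2 * u) ^ 3 := Nat.pow_le_pow_left (by omega) 3
        have h4 : (2 * u) ^ 3 = 8 * u ^ 3 := by ring
        omega
      exact_mod_cast h2
    have h5 : 2 * A * n / (u : ℝ) ^ 4 * (1 + Real.log (1 + (u : ℝ) ^ 4)) ≤
        2 * A * n / (u : ℝ) ^ 4 * (c / (64 * A) * u) := mul_le_mul_of_nonneg_left hlog (by positivity)
    refine h5.trans ?_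
    have h6 : 2 * A * n / (u : ℝ) ^ 4 * (c / (64 * A) * u) = c / 32 * (n / u ^ 3) := by field_simp; ring
    rw [h6]
    have h7 : (n : ℝ) / u ^ 3 ≤ 8 * (n / t) := by
      rw [div_le_iff₀ (by positivity)]
      have h8 : 8 * ((n : ℝ) / t) * u ^ 3 = n * (8 * u ^ 3 / t) := by field_simp
      rw [h8]
      have h9 : 1 ≤ 8 * (u : ℝ) ^ 3 / t := (one_le_div ht0).mpr h1
      nlinarith
    nlinarith
  have e4 : 3 * ((((u ^ 4 + 1) ^ (2 * u ^ 2) : ℕ) : ℝ) * ((t : ℝ) + 1)) ≤ c / 4 * (n / t) := by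
    set M : ℝ := (((u ^ 4 + 1) ^ (2 * u ^ 2) : ℕ) : ℝ) with hMdef
    have hM2 : M ^ 2 ≤ 2 ^ t := by
      have h1 : ((u ^ 4 + 1) ^ (2 * u ^ 2)) ^ 2 ≤ 2 ^ t := by
        rw [← pow_mul]
        have h2 : 2 * u ^ 2 * 2 = 4 * u ^ 2 := by ring
        rw [h2]
        exact hM.trans (Nat.pow_le_pow_right (by norm_num) hut)
      rw [hMdef]
      exact_mod_cast h1
    have hY : 0 ≤ 12 * ((t : ℝ) + 1) * t / c := by positivity
    have hMnn : 0 ≤ M := by rw [hMdef]; positivity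
    have hXY : M * (12 * ((t : ℝ) + 1) * t / c) ≤ n := by
      have h3 : (M * (12 * ((t : ℝ) + 1) * t / c)) ^ 2 ≤ ((2 : ℝ) ^ t) ^ 2 := by
        rw [mul_pow, pow_two ((2 : ℝ) ^ t)]
        exact mul_le_mul hM2 ht (by positivity) (by positivity)
      exact (pow_le_pow_iff_left₀ (by positivity) (by positivity) two_ne_zero).mp h3 |>.trans h2t'
    have h4 : c / (4 * t) * (M * (12 * ((t : ℝ) + 1) * t / c)) ≤ c / (4 * t) * n :=
      mul_le_mul_of_nonneg_left hXY (by positivity)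
    calc 3 * (M * ((t : ℝ) + 1)) = c / (4 * t) * (M * (12 * ((t : ℝ) + 1) * t / c)) := by field_simp; ring
      _ ≤ c / (4 * t) * n := h4
      _ = c / 4 * (n / t) := by field_simp
  have hM1 : (1 : ℝ) ≤ (((u ^ 4 + 1) ^ (2 * u ^ 2) : ℕ) : ℝ) := by
    exact_mod_cast Nat.one_le_pow _ _ (by omega)
  -- the right side
  have e6 : c * (n / t) - (t + 1) ≤
      (((n / (4 * A) - 4) / (2 * t ^ 2 + 7 * t + 9) : ℕ) : ℝ) * Real.log n := by
    have h1 : (n : ℝ) / (4 * A) - 5 ≤ ((n / (4 * A) - 4 : ℕ) : ℝ) := by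
      have h2 := arith_nat_div n (4 * A) (by omega)
      have h3 : ((n / (4 * A) : ℕ) : ℝ) ≤ ((n / (4 * A) - 4 : ℕ) : ℝ) + 4 := by
        exact_mod_cast le_tsub_add
      push_cast at h2
      linarith
    have hnA' : (40 : ℝ) * A ≤ n := by exact_mod_cast hnA
    have h4 : (n : ℝ) / (8 * A) ≤ ((n / (4 * A) - 4 : ℕ) : ℝ) := by
      refine le_trans ?_ h1
      have h5 : (n : ℝ) / (4 * A) = 2 * (n / (8 * A)) := by field_simp; ring
      have h6 : 5 ≤ (n : ℝ) / (8 * A) := by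
        rw [le_div_iff₀ (by positivity)]; linarith
      rw [h5]; linarith
    have h7 := arith_nat_div (n / (4 * A) - 4) (2 * t ^ 2 + 7 * t + 9) (by omega)
    have h8 : (n : ℝ) / (144 * A * t ^ 2) ≤ ((n / (4 * A) - 4 : ℕ) : ℝ) / ((2 * t ^ 2 + 7 * t + 9 : ℕ) : ℝ) := by
      have h9 : ((2 * t ^ 2 + 7 * t + 9 : ℕ) : ℝ) ≤ 18 * t ^ 2 := by push_cast; nlinarith
      have h10 : (0 : ℝ) < ((2 * t ^ 2 + 7 * t + 9 : ℕ) : ℝ) := by positivity
      calc (n : ℝ) / (144 * A * t ^ 2) = n / (8 * A) / (18 * t ^ 2) := by field_simp; ring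
        _ ≤ n / (8 * A) / ((2 * t ^ 2 + 7 * t + 9 : ℕ) : ℝ) :=
            div_le_div_of_nonneg_left (by positivity) h10 h9
        _ ≤ _ := div_le_div_of_nonneg_right h4 h10.le
    have h11 : (n : ℝ) / (144 * A * t ^ 2) - 1 ≤
        (((n / (4 * A) - 4) / (2 * t ^ 2 + 7 * t + 9) : ℕ) : ℝ) := by linarith
    refine le_trans ?_ (mul_le_mul_of_nonneg_right h11 hLpos.le)
    have h12 : c * (n / t) ≤ n / (144 * A * t ^ 2) * Real.log n := by
      calc c * ((n : ℝ) / t) = n / (144 * A * t ^ 2) * (t * Real.log 2) := by rw [hc]; field_simp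
        _ ≤ _ := mul_le_mul_of_nonneg_left hL1 (by positivity)
    rw [sub_mul, one_mul]
    linarith
  refine le_trans ?_ e6
  have h13 : (t : ℝ) + 1 ≤ (((u ^ 4 + 1) ^ (2 * u ^ 2) : ℕ) : ℝ) * ((t : ℝ) + 1) := by nlinarith
  have h14 : 0 ≤ c / 4 * ((n : ℝ) / t) := by positivity
  linarith

theorem final_arith (A : ℕ) (hA : 1 ≤ A) : ∃ δ : ℝ, 0 < δ ∧ ∃ n0 : ℕ, ∀ n : ℕ, n0 ≤ n →
    ∀ u : ℕ, u ^ 3 ≤ Nat.log 2 n → Nat.log 2 n < (u + 1) ^ 3 →
    Real.exp (δ * n / Real.log n) * ((n + 1 : ℝ) *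
      (2 : ℝ) ^ (n / (2 * (Nat.log 2 n) ^ 2 + 7 * (Nat.log 2 n) + 9)) *
      ((n + 1 : ℝ) ^ ((u ^ 4 + 1) ^ (2 * u ^ 2)) *
      ((n + (n / u ^ 4) * (2 * A)).choose ((n / u ^ 4) * (2 * A)) : ℝ))) ≤
      (n : ℝ) ^ ((n / (4 * A) - 4) / (2 * (Nat.log 2 n) ^ 2 + 7 * (Nat.log 2 n) + 9)) := by
  have hl2 : 0 < Real.log 2 := Real.log_pos (by norm_num)
  have hA' : (1 : ℝ) ≤ A := by exact_mod_cast hA
  obtain ⟨c, hc⟩ : ∃ c : ℝ, c = Real.log 2 / (144 * A) := ⟨_, rfl⟩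
  have hc0 : 0 < c := by rw [hc]; positivity
  obtain ⟨U1, hU1⟩ := eventually_atTop.mp arith_pow
  obtain ⟨T1, hT1⟩ := eventually_atTop.mp (arith_t c hc0)
  obtain ⟨U2, hU2⟩ := eventually_atTop.mp (arith_log (c / (64 * A)) (by positivity))
  refine ⟨c * Real.log 2 / 4, by positivity, 2 ^ ((U1 + U2 + 1) ^ 3 + T1 + 288 * A) + 40 * A, ?_⟩
  intro n hn u hut htu
  set t := Nat.log 2 n with htdef
  have hp2 : 0 < 2 ^ ((U1 + U2 + 1) ^ 3 + T1 + 288 * A) := by positivity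
  have hnA : 40 * A ≤ n := by omega
  have hn0 : n ≠ 0 := by omega
  have h2t : 2 ^ t ≤ n := Nat.pow_log_le_self 2 hn0
  have hnt : n < 2 ^ (t + 1) := Nat.lt_pow_succ_log_self (by norm_num) n
  have htbig : (U1 + U2 + 1) ^ 3 + T1 + 288 * A ≤ t := by
    rw [htdef]
    refine Nat.le_log_of_pow_le (by norm_num) (by omega)
  have hu : U1 + U2 < u := by
    by_contra hcon
    have h1 : (u + 1) ^ 3 ≤ (U1 + U2 + 1) ^ 3 := Nat.pow_le_pow_left (by omega) 3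
    omega
  have hmain := arith_main hA h2t hnt hut htu (by omega) c hc (hU1 u (by omega)) (hT1 t (by omega))
    (hU2 u (by omega)) (by omega) hnA
  have hn0' : (0 : ℝ) < n := by exact_mod_cast Nat.pos_of_ne_zero hn0
  have hlog1 : Real.log ((n : ℝ) + 1) ≤ t + 1 := by
    have h1 : Real.log ((n : ℝ) + 1) ≤ Real.log ((2 : ℝ) ^ (t + 1)) := by
      refine Real.log_le_log (by positivity) ?_
      exact_mod_cast hnt
    rw [Real.log_pow] at h1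
    have hl2' : Real.log 2 ≤ 1 := by have := Real.log_two_lt_d9; linarith
    push_cast at h1
    nlinarith [Nat.cast_nonneg (α := ℝ) t]
  have f1 : (n : ℝ) + 1 ≤ Real.exp ((t : ℝ) + 1) := by
    rw [← Real.exp_log (show (0 : ℝ) < n + 1 by positivity)]
    exact Real.exp_le_exp.mpr hlog1
  have f2 : (2 : ℝ) ^ (n / (2 * t ^ 2 + 7 * t + 9)) =
      Real.exp (((n / (2 * t ^ 2 + 7 * t + 9) : ℕ) : ℝ) * Real.log 2) := by
    rw [Real.exp_nat_mul, Real.exp_log (by norm_num)]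
  have f3 : ((n : ℝ) + 1) ^ ((u ^ 4 + 1) ^ (2 * u ^ 2)) ≤
      Real.exp ((((u ^ 4 + 1) ^ (2 * u ^ 2) : ℕ) : ℝ) * ((t : ℝ) + 1)) := by
    rw [Real.exp_nat_mul]
    exact pow_le_pow_left₀ (by positivity) f1 _
  have f4 : ((n + (n / u ^ 4) * (2 * A)).choose ((n / u ^ 4) * (2 * A)) : ℝ) ≤
      Real.exp (2 * A * n / (u : ℝ) ^ 4 * (1 + Real.log (1 + (u : ℝ) ^ 4))) := by
    have h1 : (0 : ℝ) < ((n + (n / u ^ 4) * (2 * A)).choose ((n / u ^ 4) * (2 * A)) : ℕ) := by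
      exact_mod_cast Nat.choose_pos (by omega)
    rw [← Real.exp_log h1]
    exact Real.exp_le_exp.mpr (binom_le A n u hA (by omega) (by omega))
  have f5 : (n : ℝ) ^ ((n / (4 * A) - 4) / (2 * t ^ 2 + 7 * t + 9)) =
      Real.exp ((((n / (4 * A) - 4) / (2 * t ^ 2 + 7 * t + 9) : ℕ) : ℝ) * Real.log n) := by
    rw [Real.exp_nat_mul, Real.exp_log hn0']
  rw [f5]
  refine le_trans ?_ (Real.exp_le_exp.mpr hmain)
  have f6 : Real.exp ((c * Real.log 2 / 4) * n / Real.log n + (((t : ℝ) + 1) +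
      ((n / (2 * t ^ 2 + 7 * t + 9) : ℕ) : ℝ) * Real.log 2 +
      ((((u ^ 4 + 1) ^ (2 * u ^ 2) : ℕ) : ℝ) * ((t : ℝ) + 1) +
        2 * A * n / (u : ℝ) ^ 4 * (1 + Real.log (1 + (u : ℝ) ^ 4))))) =
      Real.exp ((c * Real.log 2 / 4) * n / Real.log n) * (Real.exp ((t : ℝ) + 1) *
      (2 : ℝ) ^ (n / (2 * t ^ 2 + 7 * t + 9)) *
      (Real.exp ((((u ^ 4 + 1) ^ (2 * u ^ 2) : ℕ) : ℝ) * ((t : ℝ) + 1)) *
        Real.exp (2 * A * n / (u : ℝ) ^ 4 * (1 + Real.log (1 + (u : ℝ) ^ 4))))) := by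
    rw [f2, ← Real.exp_add, ← Real.exp_add, ← Real.exp_add, ← Real.exp_add]
  rw [f6]
  refine mul_le_mul_of_nonneg_left ?_ (Real.exp_pos _).le
  refine mul_le_mul ?_ ?_ (by positivity) (by positivity)
  · exact mul_le_mul_of_nonneg_right f1 (by positivity)
  · exact mul_le_mul f3 f4 (by positivity) (by positivity)

end Pool.SpU
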