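import Pool.Agent.SpU.Basic

/-!
# SpU/BuildIdx

Indexing of the legs.

Proof.  Let `M.toList = [l_0, ..., l_{c-1}]`; the legs at root `j` are the elements of `(l_j).toList`.
The index set `Σ j : Fin c, Fin (card (l_j))` is equivalent to `Fin N`, `N` its cardinality; `r` is the
first projection, `n` the element of the list.
-/

namespace Pool.SpU

open Finset

private theorem BuildIdx_univ_map_get {α : Type} (L : List α) :
    (univ : Finset (Fin L.length)).val.map (fun k => L.get k) = (L : Multiset α) := by
  rw [Fin.univ_val_map, List.ofFn_get]

/-- indexing of the legs -/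
theorem exists_index (M : Ty) (hM : ∀ l ∈ M, 3 ≤ Multiset.card l) :
    ∃ (c N : ℕ) (n : Fin N → ℕ) (r : Fin N → Fin c), Function.Surjective r ∧
      (∀ i, ∃ j, j ≠ i ∧ r j = r i) ∧
      M = (univ : Finset (Fin c)).val.map fun j => (univ.filter fun i => r i = j).val.map n := by
  classical
  set L : List (Multiset ℕ) := Multiset.toList M with hL
  have hlen : ∀ j : Fin L.length, 3 ≤ (L.get j).toList.length := by
    intro j
    rw [Multiset.length_toList]
    refine hM _ ?_
    rw [← Multiset.mem_toList]
    exact List.get_mem L j
  let I := Σ j : Fin L.length, Fin (L.get j).toList.length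
  let e : Fin (Fintype.card I) ≃ I := (Fintype.equivFin I).symm
  refine ⟨L.length, Fintype.card I, fun i => (L.get (e i).1).toList.get (e i).2, fun i => (e i).1,
    ?_, ?_, ?_⟩
  · intro j
    have h3 := hlen j
    exact ⟨e.symm ⟨j, ⟨0, by omega⟩⟩, by simp⟩
  · intro i
    have h3 := hlen (e i).1
    by_cases h : (e i).2.val = 0
    · refine ⟨e.symm ⟨(e i).1, ⟨1, by omega⟩⟩, ?_, by simp⟩
      intro h1
      have h2 : e i = ⟨(e i).1, ⟨1, by omega⟩⟩ := by
        conv_lhs => rw [← h1]
        simp
      have h4 := congrArg (fun x : I => x.2.val) h2
      simp only at h4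
      omega
    · refine ⟨e.symm ⟨(e i).1, ⟨0, by omega⟩⟩, ?_, by simp⟩
      intro h1
      have h2 : e i = ⟨(e i).1, ⟨0, by omega⟩⟩ := by
        conv_lhs => rw [← h1]
        simp
      have h4 := congrArg (fun x : I => x.2.val) h2
      simp only at h4
      omega
  · have key : ∀ j : Fin L.length,
        ((univ.filter fun i : Fin (Fintype.card I) => (e i).1 = j).val.map
          fun i => (L.get (e i).1).toList.get (e i).2) = L.get j := by
      intro j
      have hf : (univ.filter fun i : Fin (Fintype.card I) => (e i).1 = j) =
          (univ : Finset (Fin (L.get j).toList.length)).map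
            ⟨fun k => e.symm ⟨j, k⟩, fun k k' h => by
              have h2 : (⟨j, k⟩ : I) = ⟨j, k'⟩ := e.symm.injective h
              exact eq_of_heq (Sigma.mk.inj h2).2⟩ := by
        ext i
        simp only [mem_filter, mem_univ, true_and, mem_map]
        constructor
        · rintro rfl
          exact ⟨(e i).2, by simp⟩
        · rintro ⟨k, rfl⟩
          simp
      rw [hf, Finset.map_val, Multiset.map_map]
      have h5 : ((univ : Finset (Fin (L.get j).toList.length)).val.map
          ((fun i => (L.get (e i).1).toList.get (e i).2) ∘
            fun k => e.symm ⟨j, k⟩)) =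
          (univ : Finset (Fin (L.get j).toList.length)).val.map
            (fun k => (L.get j).toList.get k) := by
        apply Multiset.map_congr rfl
        intro k _
        simp only [Function.comp]
        have : e (e.symm ⟨j, k⟩) = ⟨j, k⟩ := e.apply_symm_apply _
        rw [this]
      refine h5.trans ?_
      rw [BuildIdx_univ_map_get, Multiset.coe_toList]
    have h6 : ((univ : Finset (Fin L.length)).val.map fun j =>
        ((univ.filter fun i : Fin (Fintype.card I) => (e i).1 = j).val.map
          fun i => (L.get (e i).1).toList.get (e i).2)) =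
        (univ : Finset (Fin L.length)).val.map fun j => L.get j :=
      Multiset.map_congr rfl fun j _ => key j
    refine Eq.trans ?_ h6.symm
    rw [BuildIdx_univ_map_get, hL, Multiset.coe_toList]

end Pool.SpU
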