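import Pool.Agent.SpU.TySize
import Pool.Agent.SpU.BuildIdx

/-!
# SpU/Build

Every type in `Can n` is the type of a graph on `Fin n`.

Proof.  `exists_index` (module BuildIdx) indexes the legs by `Fin N`.  `build_graph`: given `n : Fin N → ℕ` positive and a surjective
`r : Fin N → Fin c`, the graph on `Fin c ⊕ (Σ i : Fin N, Fin (n i))` in which `inr ⟨i, t⟩` is joined to
`inr ⟨i, t-1⟩` (to `inl (r i)` if `t = 0`) has the obvious description by legs.  Then move the graph to
`Fin n` by an equivalence (the number of vertices is `c + ∑ n i = size M`); `ty` does not change.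
-/

namespace Pool.SpU

open Finset Pool.SpA

/-- transport of a description along an isomorphism -/
theorem exists_legs_iso {V W : Type*} [DecidableEq V] [DecidableEq W] {G : SimpleGraph V}
    {H : SimpleGraph W} (e : G ≃g H) {N : ℕ} (L : Legs G N) :
    ∃ L' : Legs H N, ty L' = ty L := by
  refine ⟨{ n := L.n, root := fun i => e (L.root i), vert := fun i t => e (L.vert i t),
            pos := L.pos
            inj := fun i j t s h1 h2 h => L.inj i j t s h1 h2 (e.injective h)
            root_ne := fun i j t h h' => L.root_ne i j t h (e.injective h')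
            cover := ?_
            adj := ?_
            one := ?_ }, ?_⟩
  · intro v
    rcases L.cover (e.symm v) with ⟨i, hi⟩ | ⟨i, t, ht, hi⟩
    · left
      exact ⟨i, by rw [hi]; exact e.apply_symm_apply v⟩
    · right
      exact ⟨i, t, ht, by rw [hi]; exact e.apply_symm_apply v⟩
  · intro u v
    have h1 : H.Adj u v ↔ G.Adj (e.symm u) (e.symm v) := (e.symm.map_adj_iff).symm
    rw [h1, L.adj]
    have key : ∀ (w : W) (x : V), e.symm w = x ↔ w = e x := by
      intro w x
      constructor
      · intro h
        rw [← h]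
        exact (e.apply_symm_apply w).symm
      · intro h
        rw [h]
        exact e.symm_apply_apply x
    have hite : ∀ i t, e (if t = 0 then L.root i else L.vert i (t - 1)) =
        if t = 0 then e (L.root i) else e (L.vert i (t - 1)) := by
      intro i t
      split_ifs <;> rfl
    simp only [key, hite]
  · intro i hi
    obtain ⟨j, hj, hj'⟩ := L.one i hi
    exact ⟨j, hj, by rw [hj']⟩
  · unfold ty
    simp only
    have h1 : (univ.image fun i => e (L.root i)) = (univ.image L.root).image e := by
      rw [Finset.image_image]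
      rfl
    rw [h1, Finset.image_val_of_injOn (e.injective.injOn), Multiset.map_map]
    apply Multiset.map_congr rfl
    intro c _
    simp only [Function.comp_apply]
    congr 2
    ext i
    simp

/-- the vertices of the legs -/
def Build.vert {c N : ℕ} (n : Fin N → ℕ) (r : Fin N → Fin c) (i : Fin N) (t : ℕ) :
    Fin c ⊕ (Σ i : Fin N, Fin (n i)) :=
  if h : t < n i then Sum.inr ⟨i, ⟨t, h⟩⟩ else Sum.inl (r i)

theorem Build.vert_of_lt {c N : ℕ} (n : Fin N → ℕ) (r : Fin N → Fin c) (i : Fin N) (t : ℕ)
    (h : t < n i) : Build.vert n r i t = Sum.inr ⟨i, ⟨t, h⟩⟩ := dif_pos h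

/-- the previous vertex -/
def Build.par {c N : ℕ} (n : Fin N → ℕ) (r : Fin N → Fin c) (i : Fin N) (t : ℕ) :
    Fin c ⊕ (Σ i : Fin N, Fin (n i)) :=
  if t = 0 then Sum.inl (r i) else Build.vert n r i (t - 1)

theorem Build.par_ne {c N : ℕ} (n : Fin N → ℕ) (r : Fin N → Fin c) (i : Fin N) (t : ℕ)
    (h : t < n i) : Build.par n r i t ≠ Build.vert n r i t := by
  unfold Build.par
  rw [Build.vert_of_lt n r i t h]
  split_ifs with h0
  · simp
  · rw [Build.vert_of_lt n r i (t - 1) (by omega)]
    intro h1
    simp only [Sum.inr.injEq, Sigma.mk.injEq, heq_eq_eq, Fin.mk.injEq, true_and] at h1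
    omega

theorem build_graph (c N : ℕ) (n : Fin N → ℕ) (r : Fin N → Fin c) (hn : ∀ i, 1 ≤ n i)
    (hr : Function.Surjective r) (hone : ∀ i, n i = 1 → ∃ j, j ≠ i ∧ r j = r i) :
    ∃ G : SimpleGraph (Fin c ⊕ (Σ i : Fin N, Fin (n i))), ∃ L : Legs G N,
      ty L = (univ : Finset (Fin c)).val.map
        fun j => (univ.filter fun i => r i = j).val.map n := by
  let G : SimpleGraph (Fin c ⊕ (Σ i : Fin N, Fin (n i))) :=
    { Adj := fun u v => ∃ i t, t < n i ∧ ((u = Build.par n r i t ∧ v = Build.vert n r i t) ∨
        (v = Build.par n r i t ∧ u = Build.vert n r i t))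
      symm := ⟨fun u v ⟨i, t, ht, h⟩ => ⟨i, t, ht, h.symm⟩⟩
      loopless := ⟨fun u ⟨i, t, ht, h⟩ => by
        rcases h with ⟨h1, h2⟩ | ⟨h1, h2⟩
        · exact Build.par_ne n r i t ht (h1.symm.trans h2)
        · exact Build.par_ne n r i t ht (h1.symm.trans h2)⟩ }
  let L : Legs G N :=
    { n := n
      root := fun i => Sum.inl (r i)
      vert := Build.vert n r
      pos := hn
      inj := by
        intro i j t s ht hs h
        rw [Build.vert_of_lt n r i t ht, Build.vert_of_lt n r j s hs] at h
        simp only [Sum.inr.injEq] at h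
        have h1 : i = j := congrArg Sigma.fst h
        subst h1
        simp only [Sigma.mk.injEq, heq_eq_eq, Fin.mk.injEq, true_and] at h
        exact ⟨rfl, h⟩
      root_ne := by
        intro i j t ht h
        rw [Build.vert_of_lt n r j t ht] at h
        simp at h
      cover := by
        rintro (j | ⟨i, t⟩)
        · left
          obtain ⟨i, hi⟩ := hr j
          exact ⟨i, by rw [hi]⟩
        · right
          exact ⟨i, t.1, t.2, Build.vert_of_lt n r i t.1 t.2⟩
      adj := fun u v => Iff.rfl
      one := by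
        intro i hi
        obtain ⟨j, hj, hj'⟩ := hone i hi
        exact ⟨j, hj, by rw [hj']⟩ }
  refine ⟨G, L, ?_⟩
  unfold ty
  have h1 : (univ.image L.root) = (univ : Finset (Fin c)).image Sum.inl := by
    ext x
    simp only [Finset.mem_image, Finset.mem_univ, true_and, L]
    constructor
    · rintro ⟨i, hi⟩
      exact ⟨r i, hi⟩
    · rintro ⟨j, hj⟩
      obtain ⟨i, hi⟩ := hr j
      exact ⟨i, by rw [hi]; exact hj⟩
  rw [h1, Finset.image_val_of_injOn (Sum.inl_injective.injOn), Multiset.map_map]
  apply Multiset.map_congr rfl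
  intro j _
  simp only [Function.comp_apply, L]
  congr 2
  ext i
  simp

theorem build (n : ℕ) (M : Ty) (hM : M ∈ Can n) :
    ∃ (G : SimpleGraph (Fin n)) (N : ℕ) (L : Legs G N), ty L = M := by
  obtain ⟨hM1, hM2⟩ := hM
  obtain ⟨c, N, n', r, hr, hone, hMeq⟩ := exists_index M fun l hl => (hM1 l hl).1
  have hpos : ∀ i, 1 ≤ n' i := by
    intro i
    have hmem : ((univ.filter fun i' => r i' = r i).val.map n') ∈ M := by
      rw [hMeq]
      exact Multiset.mem_map.mpr ⟨r i, Finset.mem_univ_val _, rfl⟩
    refine (hM1 _ hmem).2 (n' i) ?_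
    apply Multiset.mem_map_of_mem
    simp
  obtain ⟨G, L, hL⟩ := build_graph c N n' r hpos hr fun i _ => hone i
  have hcard : Fintype.card (Fin c ⊕ (Σ i : Fin N, Fin (n' i))) = n := by
    rw [← ty_size L, hL, ← hMeq, hM2]
  let e := Fintype.equivFinOfCardEq hcard
  obtain ⟨L', hL'⟩ := exists_legs_iso (SimpleGraph.Iso.map e G) L
  exact ⟨_, N, L', by rw [hL', hL, ← hMeq]⟩

end Pool.SpU
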