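import Pool.Agent.SpU.Defs

/-!
# SpU/Inv

If every root has at least three legs, the type is the invariant `tyG`.
-/

namespace Pool.SpU

open Finset Pool.SpA

/-- transport of a filtered multiset along an equivalence -/
theorem Inv_filter_map {V W α : Type*} [Fintype V] [Fintype W] (e : V ≃ W) (p : W → Prop)
    (q : V → Prop) [DecidablePred p] [DecidablePred q] (hpq : ∀ v, q v ↔ p (e v)) (f : W → α) :
    (univ.filter p).val.map f = (univ.filter q).val.map (fun v => f (e v)) := by
  have h1 : univ.filter p = (univ.filter q).map e.toEmbedding := by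
    ext w
    simp only [mem_filter, mem_univ, true_and, mem_map, Equiv.coe_toEmbedding]
    constructor
    · intro hw
      exact ⟨e.symm w, by rw [hpq, e.apply_symm_apply]; exact hw, e.apply_symm_apply w⟩
    · rintro ⟨v, hv, rfl⟩
      exact (hpq v).1 hv
  rw [h1, Finset.map_val, Multiset.map_map]
  rfl

theorem Inv_deg {V W : Type*} [Fintype V] [Fintype W] {G : SimpleGraph V} {H : SimpleGraph W}
    (e : G ≃g H) (v : V) : deg H (e v) = deg G v := by
  classical
  unfold deg
  symm
  apply Finset.card_bij (fun w _ => e w)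
  · intro w hw
    rw [mem_filter] at hw ⊢
    exact ⟨mem_univ _, e.map_adj_iff.2 hw.2⟩
  · intro w _ w' _ h
    exact e.injective h
  · intro w hw
    rw [mem_filter] at hw
    refine ⟨e.symm w, ?_, e.apply_symm_apply w⟩
    rw [mem_filter]
    refine ⟨mem_univ _, ?_⟩
    rw [← e.map_adj_iff, e.apply_symm_apply]
    exact hw.2

theorem Inv_branch_sub {V W : Type*} {G : SimpleGraph V} {H : SimpleGraph W}
    (e : G ≃g H) (v w : V) : e '' branch G v w ⊆ branch H (e v) (e w) := by
  rintro _ ⟨u, hu, rfl⟩
  have hu' : Relation.ReflTransGen (fun a b => G.Adj a b ∧ b ≠ v) w u := hu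
  show Relation.ReflTransGen (fun a b => H.Adj a b ∧ b ≠ e v) (e w) (e u)
  refine hu'.lift e ?_
  rintro a b ⟨h1, h2⟩
  exact ⟨e.map_adj_iff.2 h1, fun h => h2 (e.injective h)⟩

theorem Inv_branch {V W : Type*} {G : SimpleGraph V} {H : SimpleGraph W}
    (e : G ≃g H) (v w : V) : (branch H (e v) (e w)).ncard = (branch G v w).ncard := by
  have h1 : branch H (e v) (e w) = e '' branch G v w := by
    apply Set.Subset.antisymm
    · intro u hu
      have h2 := Inv_branch_sub e.symm (e v) (e w)
      rw [show e.symm (e v) = v from e.symm_apply_apply v,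
        show e.symm (e w) = w from e.symm_apply_apply w] at h2
      exact ⟨e.symm u, h2 ⟨u, hu, rfl⟩, e.apply_symm_apply u⟩
    · exact Inv_branch_sub e v w
  rw [h1, Set.ncard_image_of_injective _ e.injective]

theorem tyG_iso {V W : Type*} [Fintype V] [Fintype W] {G : SimpleGraph V} {H : SimpleGraph W}
    (e : G ≃g H) : tyG G = tyG H := by
  classical
  unfold tyG
  rw [Inv_filter_map e.toEquiv (fun v => 3 ≤ deg H v) (fun v => 3 ≤ deg G v)
    (fun v => by
      have : deg H (e.toEquiv v) = deg G v := Inv_deg e v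
      rw [this])]
  apply Multiset.map_congr rfl
  intro v _
  rw [Inv_filter_map e.toEquiv (fun w => H.Adj (e.toEquiv v) w) (fun w => G.Adj v w)
    (fun w => (e.map_adj_iff (v := v) (w := w)).symm)]
  apply Multiset.map_congr rfl
  intro w _
  exact (Inv_branch e v w).symm

theorem Inv_leg_step {V : Type*} {G : SimpleGraph V} {N : ℕ} (L : Legs G N) {i : Fin N} {t : ℕ}
    (ht : t < L.n i) {b : V} (hab : G.Adj (L.vert i t) b) :
    (t + 1 < L.n i ∧ b = L.vert i (t + 1)) ∨ b = (if t = 0 then L.root i else L.vert i (t - 1)) := by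
  rw [L.adj] at hab
  obtain ⟨j, s, hs, ⟨h1, h2⟩ | ⟨h1, h2⟩⟩ := hab
  · left
    by_cases hs0 : s = 0
    · rw [if_pos hs0] at h1
      exact absurd h1.symm (L.root_ne j i t ht)
    · rw [if_neg hs0] at h1
      obtain ⟨hij, hts⟩ := L.inj i j t (s - 1) ht (by omega) h1
      subst hij
      have e1 : s = t + 1 := by omega
      subst e1
      exact ⟨hs, h2⟩
  · right
    obtain ⟨hij, hts⟩ := L.inj i j t s ht hs h2
    subst hij
    subst hts
    exact h1

theorem Inv_branch_eq {V : Type*} {G : SimpleGraph V} {N : ℕ} (L : Legs G N) (i : Fin N) :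
    branch G (L.root i) (L.vert i 0) = (fun t => L.vert i t) '' (Set.Iio (L.n i)) := by
  apply Set.Subset.antisymm
  · intro u hu
    have hu' : Relation.ReflTransGen (fun a b => G.Adj a b ∧ b ≠ L.root i) (L.vert i 0) u := hu
    induction hu' with
    | refl => exact ⟨0, L.pos i, rfl⟩
    | tail _ hab ih =>
      rename_i a b h0
      obtain ⟨t, ht, hta⟩ := ih h0
      simp only at hta
      rw [← hta] at hab
      have ht' : t < L.n i := ht
      rcases Inv_leg_step L ht' hab.1 with ⟨h1, h2⟩ | h1
      · exact ⟨t + 1, h1, h2.symm⟩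
      · by_cases h0 : t = 0
        · rw [if_pos h0] at h1
          exact absurd h1 hab.2
        · rw [if_neg h0] at h1
          refine ⟨t - 1, ?_, h1.symm⟩
          show t - 1 < L.n i
          omega
  · rintro _ ⟨t, ht, rfl⟩
    have ht' : t < L.n i := ht
    clear ht
    show Relation.ReflTransGen (fun a b => G.Adj a b ∧ b ≠ L.root i) (L.vert i 0) (L.vert i t)
    induction t with
    | zero => exact Relation.ReflTransGen.refl
    | succ t ih =>
      refine (ih (by omega)).tail ⟨?_, (L.root_ne i i (t + 1) ht').symm⟩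
      rw [L.adj]
      refine ⟨i, t + 1, ht', Or.inl ⟨?_, rfl⟩⟩
      rw [if_neg (by omega)]
      rfl

theorem branch_leg {V : Type*} {G : SimpleGraph V} {N : ℕ} (L : Legs G N) (i : Fin N) :
    (branch G (L.root i) (L.vert i 0)).ncard = L.n i := by
  rw [Inv_branch_eq, Set.ncard_image_of_injOn]
  · rw [← Set.ncard_coe_finset (Finset.range (L.n i)) |>.trans (Finset.card_range _)]
    congr 1
    ext x
    simp
  · intro t ht s hs hts
    exact (L.inj i i t s ht hs hts).2

theorem Inv_root_adj {V : Type*} {G : SimpleGraph V} {N : ℕ} (L : Legs G N) (i : Fin N) (w : V) :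
    G.Adj (L.root i) w ↔ ∃ j, L.root j = L.root i ∧ w = L.vert j 0 := by
  rw [L.adj]
  constructor
  · rintro ⟨j, s, hs, ⟨h1, h2⟩ | ⟨h1, h2⟩⟩
    · by_cases hs0 : s = 0
      · rw [if_pos hs0] at h1
        subst hs0
        exact ⟨j, h1.symm, h2⟩
      · rw [if_neg hs0] at h1
        exact absurd h1 (L.root_ne i j (s - 1) (by omega))
    · exact absurd h2 (L.root_ne i j s hs)
  · rintro ⟨j, h1, h2⟩
    exact ⟨j, 0, L.pos j, Or.inl ⟨by rw [if_pos rfl, h1], h2⟩⟩

theorem ty_eq_tyG {V : Type*} [Fintype V] [DecidableEq V] {G : SimpleGraph V} {N : ℕ}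
    (L : Legs G N) (h : ∀ l ∈ ty L, 3 ≤ Multiset.card l) : ty L = tyG G := by
  classical
  have hnb : ∀ i : Fin N, (univ.filter fun w => G.Adj (L.root i) w) =
      (univ.filter fun j => L.root j = L.root i).map
        ⟨fun j => L.vert j 0, fun a b hab => (L.inj a b 0 0 (L.pos a) (L.pos b) hab).1⟩ := by
    intro i
    ext w
    simp only [mem_filter, mem_univ, true_and, mem_map, Function.Embedding.coeFn_mk]
    rw [Inv_root_adj]
    constructor
    · rintro ⟨j, h1, h2⟩
      exact ⟨j, h1, h2.symm⟩
    · rintro ⟨j, h1, h2⟩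
      exact ⟨j, h1, h2.symm⟩
  have hroot : ∀ i : Fin N, 3 ≤ deg G (L.root i) := by
    intro i
    have h1 := h ((univ.filter fun j => L.root j = L.root i).val.map L.n) (by
      unfold ty
      rw [Multiset.mem_map]
      exact ⟨L.root i, Finset.mem_image_of_mem _ (mem_univ i), rfl⟩)
    rw [Multiset.card_map] at h1
    have h2 : deg G (L.root i) = (univ.filter fun w => G.Adj (L.root i) w).card := rfl
    rw [h2, hnb i, Finset.card_map]
    exact h1
  have hleg : ∀ (i : Fin N) (t : ℕ), t < L.n i → deg G (L.vert i t) ≤ 2 := by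
    intro i t ht
    have h1 : (univ.filter fun w => G.Adj (L.vert i t) w) ⊆
        {L.vert i (t + 1), (if t = 0 then L.root i else L.vert i (t - 1))} := by
      intro w hw
      rw [mem_filter] at hw
      rw [mem_insert, mem_singleton]
      rcases Inv_leg_step L ht hw.2 with ⟨-, h2⟩ | h2
      · exact Or.inl h2
      · exact Or.inr h2
    exact (Finset.card_le_card h1).trans Finset.card_le_two
  have hset : univ.image L.root = univ.filter (fun v => 3 ≤ deg G v) := by
    ext v
    simp only [mem_image, mem_univ, true_and, mem_filter]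
    constructor
    · rintro ⟨i, rfl⟩
      exact hroot i
    · intro hv
      rcases L.cover v with ⟨i, hi⟩ | ⟨i, t, ht, hit⟩
      · exact ⟨i, hi⟩
      · exfalso
        have := hleg i t ht
        rw [hit] at this
        omega
  unfold ty tyG
  rw [hset]
  apply Multiset.map_congr rfl
  intro c hc
  have hc' : c ∈ univ.image L.root := by
    rw [hset]
    exact hc
  obtain ⟨i, -, rfl⟩ := Finset.mem_image.1 hc'
  rw [hnb i, Finset.map_val, Multiset.map_map]
  apply Multiset.map_congr rfl
  intro j hj
  have hj0 : j ∈ univ.filter (fun j => L.root j = L.root i) := hj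
  have hj' : L.root j = L.root i := (mem_filter.1 hj0).2
  simp only [Function.comp, Function.Embedding.coeFn_mk]
  rw [← hj', branch_leg]

end Pool.SpU
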