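import Pool.Agent.SpU.IsoMatch

/-!
# SpU/IsoOfTy

Two graphs with descriptions of the same type are isomorphic.

Proof of `iso_of_match`.  `φ (root i) = root' (σ i)`, `φ (vert i t) = vert' (σ i) t` is a well defined
bijection (`Legs.cover`, `Legs.inj`, `Legs.root_ne`; the same construction for `σ⁻¹` gives the inverse)
which preserves the adjacency (`Legs.adj`).
-/

namespace Pool.SpU

open Finset Pool.SpA

/-- the vertices `v` and `w` correspond to each other -/
def isoOfTyRel {V W : Type*} {G : SimpleGraph V} {H : SimpleGraph W} {N N' : ℕ} (L : Legs G N)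
    (L' : Legs H N') (σ : Fin N ≃ Fin N') (v : V) (w : W) : Prop :=
  (∃ i, L.root i = v ∧ L'.root (σ i) = w) ∨
    ∃ i t, t < L.n i ∧ L.vert i t = v ∧ L'.vert (σ i) t = w

section

variable {V W : Type*} {G : SimpleGraph V} {H : SimpleGraph W} {N N' : ℕ} (L : Legs G N)
  (L' : Legs H N') (σ : Fin N ≃ Fin N')

theorem isoOfTy_symm (hn : ∀ i, L'.n (σ i) = L.n i) {v : V} {w : W}
    (h : isoOfTyRel L L' σ v w) : isoOfTyRel L' L σ.symm w v := by
  rcases h with ⟨i, h1, h2⟩ | ⟨i, t, ht, h1, h2⟩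
  · left
    exact ⟨σ i, h2, by rw [Equiv.symm_apply_apply, h1]⟩
  · right
    exact ⟨σ i, t, by rw [hn]; exact ht, h2, by rw [Equiv.symm_apply_apply, h1]⟩

theorem isoOfTy_exists (v : V) : ∃ w, isoOfTyRel L L' σ v w := by
  rcases L.cover v with ⟨i, hi⟩ | ⟨i, t, ht, hi⟩
  · exact ⟨L'.root (σ i), Or.inl ⟨i, hi, rfl⟩⟩
  · exact ⟨L'.vert (σ i) t, Or.inr ⟨i, t, ht, hi, rfl⟩⟩

theorem isoOfTy_unique
    (hr : ∀ i j, L.root i = L.root j → L'.root (σ i) = L'.root (σ j)) {v : V} {w w' : W}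
    (h : isoOfTyRel L L' σ v w) (h' : isoOfTyRel L L' σ v w') : w = w' := by
  rcases h with ⟨i, h1, h2⟩ | ⟨i, t, ht, h1, h2⟩
  · rcases h' with ⟨j, h3, h4⟩ | ⟨j, s, hs, h3, h4⟩
    · rw [← h2, ← h4]
      exact hr i j (h1.trans h3.symm)
    · exact absurd (h1.trans h3.symm) (L.root_ne i j s hs)
  · rcases h' with ⟨j, h3, h4⟩ | ⟨j, s, hs, h3, h4⟩
    · exact absurd (h3.trans h1.symm) (L.root_ne j i t ht)
    · obtain ⟨h5, h6⟩ := L.inj i j t s ht hs (h1.trans h3.symm)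
      rw [← h2, ← h4, h5, h6]

theorem isoOfTy_prev {i : Fin N} {t : ℕ} (ht : t < L.n i) :
    isoOfTyRel L L' σ (if t = 0 then L.root i else L.vert i (t - 1))
      (if t = 0 then L'.root (σ i) else L'.vert (σ i) (t - 1)) := by
  by_cases h0 : t = 0
  · rw [if_pos h0, if_pos h0]
    exact Or.inl ⟨i, rfl, rfl⟩
  · rw [if_neg h0, if_neg h0]
    exact Or.inr ⟨i, t - 1, by omega, rfl, rfl⟩

theorem isoOfTy_adj (hn : ∀ i, L'.n (σ i) = L.n i)
    (hr : ∀ i j, L.root i = L.root j → L'.root (σ i) = L'.root (σ j)) {u v : V} {u' v' : W}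
    (hu : isoOfTyRel L L' σ u u') (hv : isoOfTyRel L L' σ v v') (h : G.Adj u v) :
    H.Adj u' v' := by
  rw [L.adj] at h
  rw [L'.adj]
  obtain ⟨i, t, ht, h⟩ := h
  refine ⟨σ i, t, by rw [hn]; exact ht, ?_⟩
  have hp := isoOfTy_prev L L' σ ht
  have hq : isoOfTyRel L L' σ (L.vert i t) (L'.vert (σ i) t) := Or.inr ⟨i, t, ht, rfl, rfl⟩
  rcases h with ⟨h1, h2⟩ | ⟨h1, h2⟩
  · left
    subst h1 h2
    exact ⟨isoOfTy_unique L L' σ hr hu hp, isoOfTy_unique L L' σ hr hv hq⟩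
  · right
    subst h1 h2
    exact ⟨isoOfTy_unique L L' σ hr hv hp, isoOfTy_unique L L' σ hr hu hq⟩

end

theorem iso_of_match {V W : Type*} [DecidableEq V] [DecidableEq W] {G : SimpleGraph V}
    {H : SimpleGraph W} {N N' : ℕ} (L : Legs G N) (L' : Legs H N') (σ : Fin N ≃ Fin N')
    (hn : ∀ i, L'.n (σ i) = L.n i)
    (hr : ∀ i j, L'.root (σ i) = L'.root (σ j) ↔ L.root i = L.root j) : Nonempty (G ≃g H) := by
  have hn' : ∀ i, L.n (σ.symm i) = L'.n i := by
    intro i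
    rw [← hn, Equiv.apply_symm_apply]
  have hr1 : ∀ i j, L.root i = L.root j → L'.root (σ i) = L'.root (σ j) :=
    fun i j h => (hr i j).2 h
  have hr2 : ∀ i j, L'.root i = L'.root j → L.root (σ.symm i) = L.root (σ.symm j) := by
    intro i j h
    rw [← hr, Equiv.apply_symm_apply, Equiv.apply_symm_apply]
    exact h
  have hback : ∀ {v : V} {w : W}, isoOfTyRel L' L σ.symm w v → isoOfTyRel L L' σ v w := by
    intro v w h
    have := isoOfTy_symm L' L σ.symm hn' h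
    rwa [Equiv.symm_symm] at this
  choose φ hφ using isoOfTy_exists L L' σ
  choose ψ hψ using isoOfTy_exists L' L σ.symm
  refine ⟨{ toFun := φ, invFun := ψ, left_inv := ?_, right_inv := ?_, map_rel_iff' := ?_ }⟩
  · intro v
    exact isoOfTy_unique L' L σ.symm hr2 (hψ (φ v)) (isoOfTy_symm L L' σ hn (hφ v))
  · intro w
    exact isoOfTy_unique L L' σ hr1 (hφ (ψ w)) (hback (hψ w))
  · intro u v
    constructor
    · intro h
      exact isoOfTy_adj L' L σ.symm hn' hr2 (isoOfTy_symm L L' σ hn (hφ u))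
        (isoOfTy_symm L L' σ hn (hφ v)) h
    · intro h
      exact isoOfTy_adj L L' σ hn hr1 (hφ u) (hφ v) h

theorem iso_of_ty {V W : Type*} [DecidableEq V] [DecidableEq W] {G : SimpleGraph V}
    {H : SimpleGraph W} {N N' : ℕ} (L : Legs G N) (L' : Legs H N') (h : ty L = ty L') :
    Nonempty (G ≃g H) := by
  obtain ⟨σ, hn, hr⟩ := exists_match L L' h
  exact iso_of_match L L' σ hn hr

end Pool.SpU
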