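import Mathlib

/-!
# SpU/PartLow

At least `2^(2t+2)` multisets of at least three positive numbers have the sum `2t^2+7t+8`.

Proof.  For a subset `A` of `Icc 2 (2t+3)` take `A.val + replicate (2t^2+7t+8 - ∑ A) 1`; here
`∑ A ≤ 2 + ... + (2t+3) = (2t+3)(t+2) - 1 = 2t^2+7t+5`, so there are at least three ones; `A` is the
set of the parts `≥ 2`.
-/

namespace Pool.SpU

open Finset

theorem partLow_sumIcc (t : ℕ) : ∑ i ∈ Icc 2 (2 * t + 3), i = 2 * t ^ 2 + 7 * t + 5 := by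
  induction t with
  | zero => decide
  | succ t ih =>
    have e : 2 * (t + 1) + 3 = (2 * t + 3) + 1 + 1 := by ring
    rw [e, Finset.sum_Icc_succ_top (by omega), Finset.sum_Icc_succ_top (by omega), ih]
    ring

theorem partLow_sum_le (t : ℕ) (A : Finset ℕ) (hA : A ⊆ Icc 2 (2 * t + 3)) :
    ∑ i ∈ A, i ≤ 2 * t ^ 2 + 7 * t + 5 := by
  rw [← partLow_sumIcc t]
  exact Finset.sum_le_sum_of_subset hA

theorem partLow_filter (m : ℕ) (A : Finset ℕ) (hA : ∀ x ∈ A, 2 ≤ x) :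
    Multiset.filter (fun x => 2 ≤ x) (A.val + Multiset.replicate m 1) = A.val := by
  rw [Multiset.filter_add]
  have h1 : Multiset.filter (fun x => 2 ≤ x) A.val = A.val :=
    Multiset.filter_eq_self.2 (fun x hx => hA x hx)
  have h2 : Multiset.filter (fun x => 2 ≤ x) (Multiset.replicate m 1) = 0 := by
    refine Multiset.filter_eq_nil.2 (fun x hx => ?_)
    rw [Multiset.eq_of_mem_replicate hx]
    omega
  rw [h1, h2, add_zero]

theorem part_low (t : ℕ) :
    {l : Multiset ℕ | 3 ≤ Multiset.card l ∧ (∀ x ∈ l, 1 ≤ x) ∧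
      l.sum = 2 * t ^ 2 + 7 * t + 8}.Finite ∧
    2 ^ (2 * t + 2) ≤ {l : Multiset ℕ | 3 ≤ Multiset.card l ∧ (∀ x ∈ l, 1 ≤ x) ∧
      l.sum = 2 * t ^ 2 + 7 * t + 8}.ncard := by
  have hfin : {l : Multiset ℕ | 3 ≤ Multiset.card l ∧ (∀ x ∈ l, 1 ≤ x) ∧
      l.sum = 2 * t ^ 2 + 7 * t + 8}.Finite := by
    refine (Set.finite_range
      (fun p : Nat.Partition (2 * t ^ 2 + 7 * t + 8) => p.parts)).subset ?_
    rintro l ⟨-, h1, h2⟩
    exact ⟨⟨l, fun {i} hi => h1 i hi, h2⟩, rfl⟩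
  refine ⟨hfin, ?_⟩
  set f : Finset ℕ → Multiset ℕ := fun A =>
    A.val + Multiset.replicate (2 * t ^ 2 + 7 * t + 8 - ∑ i ∈ A, i) 1 with hf
  have hsub : f '' (((Icc 2 (2 * t + 3)).powerset : Finset (Finset ℕ)) : Set (Finset ℕ)) ⊆
      {l : Multiset ℕ | 3 ≤ Multiset.card l ∧ (∀ x ∈ l, 1 ≤ x) ∧
      l.sum = 2 * t ^ 2 + 7 * t + 8} := by
    rintro l ⟨A, hA, rfl⟩
    have hA' : A ⊆ Icc 2 (2 * t + 3) := Finset.mem_powerset.1 (Finset.mem_coe.1 hA)
    have hs := partLow_sum_le t A hA'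
    refine ⟨?_, ?_, ?_⟩
    · simp only [hf, Multiset.card_add, Multiset.card_replicate]
      omega
    · intro x hx
      simp only [hf, Multiset.mem_add] at hx
      rcases hx with hx | hx
      · have := Finset.mem_Icc.1 (hA' hx)
        omega
      · rw [Multiset.eq_of_mem_replicate hx]
    · simp only [hf, Multiset.sum_add, Multiset.sum_replicate, smul_eq_mul, mul_one]
      have e : A.val.sum = ∑ i ∈ A, i := by
        rw [Finset.sum_val]
        rfl
      rw [e]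
      omega
  have hinj : Set.InjOn f
      (((Icc 2 (2 * t + 3)).powerset : Finset (Finset ℕ)) : Set (Finset ℕ)) := by
    intro A hA B hB hAB
    have hA' : A ⊆ Icc 2 (2 * t + 3) := Finset.mem_powerset.1 (Finset.mem_coe.1 hA)
    have hB' : B ⊆ Icc 2 (2 * t + 3) := Finset.mem_powerset.1 (Finset.mem_coe.1 hB)
    have e1 := partLow_filter (2 * t ^ 2 + 7 * t + 8 - ∑ i ∈ A, i) A
      (fun x hx => (Finset.mem_Icc.1 (hA' hx)).1)
    have e2 := partLow_filter (2 * t ^ 2 + 7 * t + 8 - ∑ i ∈ B, i) B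
      (fun x hx => (Finset.mem_Icc.1 (hB' hx)).1)
    have : A.val = B.val := by
      rw [← e1, ← e2]
      exact congrArg (Multiset.filter (fun x => 2 ≤ x)) hAB
    exact Finset.val_injective this
  calc 2 ^ (2 * t + 2) = (f '' (((Icc 2 (2 * t + 3)).powerset : Finset (Finset ℕ)) :
        Set (Finset ℕ))).ncard := by
        rw [Set.InjOn.ncard_image hinj, Set.ncard_coe_finset, Finset.card_powerset,
          Nat.card_Icc]
        rfl
    _ ≤ _ := Set.ncard_le_ncard hsub hfin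

end Pool.SpU
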