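import Pool.Agent.SpU.Lower
import Pool.Agent.SpU.PartLow

/-!
# SpU/LowerNum

Proof.  Let `s = 2t^2+7t+8`, `P` the number in `part_low`, `P ≥ 2^(2t+2) > n^2` as
`n < 2^(t+1)`.  With `r = (n-n'-4)/(s+1)` and `q = n - n' - r (s+1) ≥ 4` use `lower`, and
`n^r ≤ P.choose r`: `Nat.pow_le_choose` gives `(P+1-r)^r ≤ r! * P.choose r`, and `r! ≤ r^r`,
`P + 1 - r ≥ n r`.
-/

namespace Pool.SpU

open Finset

theorem LowerNum_choose (n r P : ℕ) (hr : r ≤ n) (hP : (n + 1) ^ 2 ≤ P) :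
    n ^ r ≤ P.choose r := by
  rcases Nat.eq_zero_or_pos r with h | h
  · subst h
    simp
  · have h1 : (P + 1 - r) ^ r ≤ r.factorial * P.choose r := by
      rw [← Nat.descFactorial_eq_factorial_mul_choose]
      exact Nat.pow_sub_le_descFactorial P r
    have h2 : n * r ≤ P + 1 - r := by
      have h3 : n * r ≤ n * n := Nat.mul_le_mul_left _ hr
      have h4 : (n + 1) ^ 2 = n * n + 2 * n + 1 := by ring
      omega
    have h3 : (n * r) ^ r ≤ r ^ r * P.choose r :=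
      calc (n * r) ^ r ≤ (P + 1 - r) ^ r := Nat.pow_le_pow_left h2 r
        _ ≤ r.factorial * P.choose r := h1
        _ ≤ r ^ r * P.choose r := Nat.mul_le_mul_right _ (Nat.factorial_le_pow r)
    have h4 : r ^ r * n ^ r ≤ r ^ r * P.choose r := by
      calc r ^ r * n ^ r = (n * r) ^ r := by rw [mul_pow, mul_comm]
        _ ≤ _ := h3
    exact Nat.le_of_mul_le_mul_left h4 (Nat.pow_pos h)

theorem lower_num (n n' t : ℕ) (ht : n < 2 ^ (t + 1)) (hn : n' + 4 ≤ n) :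
    (Can n').ncard * n ^ ((n - n' - 4) / (2 * t ^ 2 + 7 * t + 9)) ≤
      (Can n).ncard * 2 ^ (n / (2 * t ^ 2 + 7 * t + 9)) := by
  set s := 2 * t ^ 2 + 7 * t + 8 with hs
  have hs1 : 2 * t ^ 2 + 7 * t + 9 = s + 1 := by rw [hs]
  rw [hs1]
  set r := (n - n' - 4) / (s + 1) with hr
  have hr1 : r * (s + 1) ≤ n - n' - 4 := Nat.div_mul_le_self _ _
  have hr2 : r ≤ n := by
    calc r ≤ r * (s + 1) := Nat.le_mul_of_pos_right _ (by omega)
      _ ≤ n := by omega
  have h1 := lower n n' r s (n - n' - r * (s + 1)) (by omega) (by omega)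
  have h2 := (part_low t).2
  rw [← hs] at h2
  refine le_trans (Nat.mul_le_mul_left _ (LowerNum_choose n r _ hr2 (le_trans ?_ h2))) h1
  calc (n + 1) ^ 2 ≤ (2 ^ (t + 1)) ^ 2 := Nat.pow_le_pow_left ht 2
    _ = 2 ^ (2 * t + 2) := by rw [← pow_mul]; congr 1; ring

end Pool.SpU
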