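import Pool.Agent.SpU.MsCount

/-!
# SpU/PartUp

At most `(u^4+1)^(2u^2)` multisets of positive numbers with sum at most `u^4`.

Proof.  `l = l.filter (· ≤ u^2) + l.filter (u^2 < ·)`.  The first part is a multiset with at most
`u^4` elements of `Icc 1 (u^2)`: at most `(u^4+1)^(u^2)` possibilities (`ms_count`).  The second one
has at most `u^2` elements (each is `> u^2`, the sum is `≤ u^4`), so it is
the filter `(· ≠ 0)` of a list `List.ofFn f` for a function `f : Fin (u^2) → {0,...,u^4}`: at most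
`(u^4+1)^(u^2)` possibilities.
-/

namespace Pool.SpU

open Finset

/-- multisets with at most `m` elements in `{1,...,N}` -/
private theorem partUp_few (m N : ℕ) :
    {M : Multiset ℕ | (∀ x ∈ M, 1 ≤ x ∧ x ≤ N) ∧ Multiset.card M ≤ m}.Finite ∧
    {M : Multiset ℕ | (∀ x ∈ M, 1 ≤ x ∧ x ≤ N) ∧ Multiset.card M ≤ m}.ncard ≤ (N + 1) ^ m := by
  classical
  let Φ : (Fin m → Fin (N + 1)) → Multiset ℕ := fun f =>
    Multiset.filter (· ≠ 0) ((List.ofFn fun i => ((f i : Fin (N + 1)) : ℕ) : List ℕ) : Multiset ℕ)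
  have hsub : {M : Multiset ℕ | (∀ x ∈ M, 1 ≤ x ∧ x ≤ N) ∧ Multiset.card M ≤ m} ⊆
      Set.range Φ := by
    rintro M ⟨hM, hc⟩
    obtain ⟨L, hL⟩ : ∃ L : List ℕ, L = M.toList ++ List.replicate (m - Multiset.card M) 0 := ⟨_, rfl⟩
    have hlen : L.length = m := by
      rw [hL, List.length_append, Multiset.length_toList, List.length_replicate]
      omega
    have hle : ∀ x ∈ L, x < N + 1 := by
      intro x hx
      rw [hL, List.mem_append] at hx
      rcases hx with hx | hx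
      · rw [Multiset.mem_toList] at hx
        have := (hM x hx).2
        omega
      · have := List.eq_of_mem_replicate hx
        omega
    refine ⟨fun i => ⟨L[i.val]'(by rw [hlen]; exact i.isLt), hle _ (List.getElem_mem _)⟩, ?_⟩
    have hof : (List.ofFn fun i : Fin m => L[i.val]'(by rw [hlen]; exact i.isLt)) = L := by
      apply List.ext_getElem
      · rw [List.length_ofFn, hlen]
      · intro n h1 h2
        rw [List.getElem_ofFn]
    show Multiset.filter (· ≠ 0) ((List.ofFn fun i : Fin m =>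
      L[i.val]'(by rw [hlen]; exact i.isLt) : List ℕ) : Multiset ℕ) = M
    rw [hof, hL, ← Multiset.coe_add, Multiset.filter_add, Multiset.coe_toList,
      Multiset.coe_replicate]
    have h1 : Multiset.filter (· ≠ 0) M = M := by
      rw [Multiset.filter_eq_self]
      intro x hx
      have := (hM x hx).1
      omega
    have h2 : Multiset.filter (· ≠ 0) (Multiset.replicate (m - Multiset.card M) 0) = 0 := by
      rw [Multiset.filter_eq_nil]
      intro x hx
      rw [Multiset.eq_of_mem_replicate hx]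
      simp
    rw [h1, h2, add_zero]
  have hfin : (Set.range Φ).Finite := Set.finite_range Φ
  refine ⟨hfin.subset hsub, (Set.ncard_le_ncard hsub hfin).trans ?_⟩
  rw [← Set.image_univ]
  refine (Set.ncard_image_le Set.finite_univ).trans ?_
  rw [Set.ncard_univ, Nat.card_eq_fintype_card, Fintype.card_fun, Fintype.card_fin, Fintype.card_fin]

theorem part_up (u : ℕ) :
    {l : Multiset ℕ | (∀ x ∈ l, 1 ≤ x) ∧ l.sum ≤ u ^ 4}.Finite ∧
    {l : Multiset ℕ | (∀ x ∈ l, 1 ≤ x) ∧ l.sum ≤ u ^ 4}.ncard ≤ (u ^ 4 + 1) ^ (2 * u ^ 2) := by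
  classical
  obtain ⟨hAf, hAc⟩ := ms_count (Finset.Icc 1 (u ^ 2)) (u ^ 4)
  obtain ⟨hBf, hBc⟩ := partUp_few (u ^ 2) (u ^ 4)
  have hsub : {l : Multiset ℕ | (∀ x ∈ l, 1 ≤ x) ∧ l.sum ≤ u ^ 4} ⊆
      (fun q : Multiset ℕ × Multiset ℕ => q.1 + q.2) ''
        ({M : Multiset ℕ | (∀ x ∈ M, x ∈ Finset.Icc 1 (u ^ 2)) ∧ Multiset.card M ≤ u ^ 4} ×ˢ
          {M : Multiset ℕ | (∀ x ∈ M, 1 ≤ x ∧ x ≤ u ^ 4) ∧ Multiset.card M ≤ u ^ 2}) := by
    rintro l ⟨hl, hs⟩
    have hsum : (l.filter (· ≤ u ^ 2)).sum + (l.filter (¬ · ≤ u ^ 2)).sum = l.sum := by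
      rw [← Multiset.sum_add, Multiset.filter_add_not]
    refine ⟨(l.filter (· ≤ u ^ 2), l.filter (¬ · ≤ u ^ 2)), ⟨⟨?_, ?_⟩, ⟨?_, ?_⟩⟩,
      Multiset.filter_add_not _ _⟩
    · intro x hx
      rw [Multiset.mem_filter] at hx
      exact Finset.mem_Icc.mpr ⟨hl x hx.1, hx.2⟩
    · have h1 : Multiset.card (l.filter (· ≤ u ^ 2)) • 1 ≤ (l.filter (· ≤ u ^ 2)).sum :=
        Multiset.card_nsmul_le_sum fun x hx => hl x (Multiset.mem_filter.mp hx).1
      rw [smul_eq_mul, mul_one] at h1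
      exact h1.trans (by omega)
    · intro x hx
      rw [Multiset.mem_filter] at hx
      exact ⟨hl x hx.1, (Multiset.le_sum_of_mem hx.1).trans hs⟩
    · have h1 : Multiset.card (l.filter (¬ · ≤ u ^ 2)) • (u ^ 2 + 1) ≤
          (l.filter (¬ · ≤ u ^ 2)).sum :=
        Multiset.card_nsmul_le_sum fun x hx => by
          have := (Multiset.mem_filter.mp hx).2
          omega
      rw [smul_eq_mul] at h1
      refine not_lt.mp fun hcon => ?_
      have h2 : (u ^ 2 + 1) * (u ^ 2 + 1) ≤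
          Multiset.card (l.filter (¬ · ≤ u ^ 2)) * (u ^ 2 + 1) :=
        Nat.mul_le_mul_right _ hcon
      have h3 : u ^ 4 = u ^ 2 * u ^ 2 := by ring
      have h4 : (l.filter (¬ · ≤ u ^ 2)).sum ≤ l.sum := by omega
      have h5 := h2.trans (h1.trans (h4.trans hs))
      rw [h3] at h5
      have h6 : u ^ 2 * u ^ 2 < (u ^ 2 + 1) * (u ^ 2 + 1) :=
        Nat.mul_lt_mul_of_lt_of_le (Nat.lt_succ_self _) (Nat.le_succ _) (Nat.succ_pos _)
      exact absurd h5 (not_le.mpr h6)
  have hfin := (hAf.prod hBf)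
  refine ⟨(hfin.image _).subset hsub, (Set.ncard_le_ncard hsub (hfin.image _)).trans ?_⟩
  refine (Set.ncard_image_le hfin).trans ?_
  rw [Set.ncard_prod, two_mul, pow_add]
  rw [Nat.card_Icc, Nat.add_sub_cancel] at hAc
  exact Nat.mul_le_mul hAc hBc

end Pool.SpU
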