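import Pool.Agent.SpU.Defs
import Pool.Agent.SpA57.CountPath

/-!
# SpU/SpiderOf

A graph with a description in which every root has at least three legs is a spider forest.
-/

namespace Pool.SpU

open Finset Pool.SpA

/-- the root and the depth of a vertex -/
theorem exists_root_depth {V : Type*} {G : SimpleGraph V} {N : ℕ} (L : Legs G N) :
    ∃ (R : V → V) (d : V → ℕ), (∀ i, R (L.root i) = L.root i) ∧ (∀ i, d (L.root i) = 0) ∧
      (∀ i t, t < L.n i → R (L.vert i t) = L.root i) ∧
      (∀ i t, t < L.n i → d (L.vert i t) = t + 1) := by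
  classical
  have key : ∀ v : V, ∃ p : V × ℕ, (∀ i, L.root i = v → p = (v, 0)) ∧
      (∀ i t, t < L.n i → L.vert i t = v → p = (L.root i, t + 1)) := by
    intro v
    rcases L.cover v with ⟨i, hi⟩ | ⟨i, t, ht, hi⟩
    · refine ⟨(v, 0), fun _ _ => rfl, ?_⟩
      intro j s hs hj
      exact absurd (hi.trans hj.symm) (L.root_ne i j s hs)
    · refine ⟨(L.root i, t + 1), ?_, ?_⟩
      · intro j hj
        exact absurd (hj.trans hi.symm) (L.root_ne j i t ht)
      · intro j s hs hj
        obtain ⟨h1, h2⟩ := L.inj i j t s ht hs (hi.trans hj.symm)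
        subst h1
        subst h2
        rfl
  choose p hp1 hp2 using key
  refine ⟨fun v => (p v).1, fun v => (p v).2, ?_, ?_, ?_, ?_⟩
  · intro i
    simp only [hp1 _ i rfl]
  · intro i
    simp only [hp1 _ i rfl]
  · intro i t ht
    simp only [hp2 _ i t ht rfl]
  · intro i t ht
    simp only [hp2 _ i t ht rfl]

theorem reach_vert {V : Type*} {G : SimpleGraph V} {N : ℕ} (L : Legs G N) (i : Fin N) :
    ∀ t, t < L.n i → G.Reachable (L.vert i t) (L.root i) := by
  intro t
  induction t with
  | zero =>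
    intro ht
    apply SimpleGraph.Adj.reachable
    rw [adj_iff L]
    exact ⟨i, 0, ht, Or.inr ⟨by simp [prv], rfl⟩⟩
  | succ t ih =>
    intro ht
    refine SimpleGraph.Reachable.trans ?_ (ih (by omega))
    apply SimpleGraph.Adj.reachable
    rw [adj_iff L]
    exact ⟨i, t + 1, ht, Or.inr ⟨by simp [prv], rfl⟩⟩

theorem deg_vert_le {V : Type*} [Fintype V] {G : SimpleGraph V} {N : ℕ} (L : Legs G N)
    (i : Fin N) (t : ℕ) (ht : t < L.n i) : deg G (L.vert i t) ≤ 2 := by
  classical
  unfold deg
  have h1 : (univ.filter fun w => G.Adj (L.vert i t) w) ⊆ {prv L i t, L.vert i (t + 1)} := by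
    intro w hw
    rw [mem_filter] at hw
    obtain ⟨j, s, hs, h | h⟩ := (adj_iff L _ _).1 hw.2
    · obtain ⟨h1, h2⟩ := prv_eq_vert L hs ht h.1.symm
      subst h1
      subst h2
      rw [h.2]
      simp
    · obtain ⟨h1, h2⟩ := L.inj i j t s ht hs h.2
      subst h1
      subst h2
      rw [h.1]
      simp
  refine (card_le_card h1).trans ?_
  exact Finset.card_le_two

theorem deg_root_ge {V : Type*} [Fintype V] [DecidableEq V] {G : SimpleGraph V} {N : ℕ}
    (L : Legs G N) (h : ∀ l ∈ ty L, 3 ≤ Multiset.card l) (i : Fin N) :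
    3 ≤ deg G (L.root i) := by
  have h1 : 3 ≤ (univ.filter fun j => L.root j = L.root i).card := by
    have h2 := h ((univ.filter fun j => L.root j = L.root i).val.map L.n) (by
      unfold ty
      rw [Multiset.mem_map]
      exact ⟨L.root i, by simp, rfl⟩)
    rw [Multiset.card_map] at h2
    exact h2
  refine h1.trans ?_
  classical
  unfold deg
  refine card_le_card_of_injOn (fun j => L.vert j 0) ?_ ?_
  · intro j hj
    rw [mem_coe, mem_filter] at hj ⊢
    refine ⟨mem_univ _, ?_⟩
    rw [adj_iff L]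
    exact ⟨j, 0, L.pos j, Or.inl ⟨by simp [prv, hj.2], rfl⟩⟩
  · intro j _ k _ hjk
    exact (L.inj j k 0 0 (L.pos j) (L.pos k) hjk).1

theorem spider_of {V : Type*} [Fintype V] [DecidableEq V] {G : SimpleGraph V} {N : ℕ}
    (L : Legs G N) (h : ∀ l ∈ ty L, 3 ≤ Multiset.card l) : IsSpiderForest G := by
  obtain ⟨R, d, hR0, hd0, hR1, hd1⟩ := exists_root_depth L
  have hRp : ∀ i t, t < L.n i → R (prv L i t) = L.root i := by
    intro i t ht
    unfold prv
    split_ifs with h0
    · exact hR0 i
    · exact hR1 i _ (by omega)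
  have hdp : ∀ i t, t < L.n i → d (prv L i t) = t := by
    intro i t ht
    unfold prv
    split_ifs with h0
    · rw [hd0, h0]
    · rw [hd1 i _ (by omega)]
      omega
  have hRadj : ∀ v w, G.Adj v w → R v = R w := by
    intro v w hvw
    obtain ⟨i, t, ht, hh | hh⟩ := (adj_iff L _ _).1 hvw
    · rw [hh.1, hh.2, hRp i t ht, hR1 i t ht]
    · rw [hh.1, hh.2, hRp i t ht, hR1 i t ht]
  have hRr : ∀ v w, G.Reachable v w → R v = R w := by
    intro v w hvw
    obtain ⟨p⟩ := hvw
    induction p with
    | nil => rfl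
    | cons hadj _ ih => exact (hRadj _ _ hadj).trans ih
  have hroot : ∀ v, 3 ≤ deg G v → R v = v := by
    intro v hv
    rcases L.cover v with ⟨i, hi⟩ | ⟨i, t, ht, hi⟩
    · rw [← hi, hR0]
    · rw [← hi] at hv
      have := deg_vert_le L i t ht
      omega
  refine ⟨?_, ?_, ?_⟩
  · apply Pool.SpA57.acyclic_of_depth d
    intro v w w' h1 h2 h3 h4
    obtain ⟨i, t, ht, hh | hh⟩ := (adj_iff L _ _).1 h1
    · exfalso
      rw [hh.1, hh.2, hdp i t ht, hd1 i t ht] at h3
      omega
    · obtain ⟨j, s, hs, hk | hk⟩ := (adj_iff L _ _).1 h2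
      · exfalso
        rw [hk.1, hk.2, hdp j s hs, hd1 j s hs] at h4
        omega
      · obtain ⟨h5, h6⟩ := L.inj i j t s ht hs (hh.2.symm.trans hk.2)
        subst h5
        subst h6
        rw [hh.1, hk.1]
  · intro v
    rcases L.cover v with ⟨i, hi⟩ | ⟨i, t, ht, hi⟩
    · refine ⟨v, SimpleGraph.Reachable.refl v, ?_⟩
      rw [← hi]
      have := deg_root_ge L h i
      omega
    · refine ⟨L.root i, ?_, ?_⟩
      · rw [← hi]
        exact reach_vert L i t ht
      · have := deg_root_ge L h i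
        omega
  · intro a b hab ha hb
    rw [← hroot a ha, ← hroot b hb]
    exact hRr a b hab

end Pool.SpU
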