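import Pool.Agent.SpU.Upper
import Pool.Agent.SpU.LowerNum
import Pool.Agent.SpU.PartUp
import Pool.Agent.SpU.Arith
import Pool.Agent.SpU.IsoOfTy
import Pool.Agent.SpU.Inv
import Pool.Agent.SpU.Build
import Pool.Agent.SpU.SpiderOf

/-!
# SpU/Final

Almost all isomorphism classes of spider forests (helper75).
-/

namespace Pool.SpU

open Finset Pool.SpA

theorem classes_lower (n : ℕ) : (Can n).ncard ≤ classes n IsSpiderForest := by
  classical
  have hb : ∀ M : Ty, ∃ G : SimpleGraph (Fin n), M ∈ Can n → ∃ (N : ℕ) (L : Legs G N),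
      ty L = M := by
    intro M
    by_cases hM : M ∈ Can n
    · obtain ⟨G, N, L, h⟩ := build n M hM
      exact ⟨G, fun _ => ⟨N, L, h⟩⟩
    · exact ⟨⊥, fun h => absurd h hM⟩
  choose G hG using hb
  unfold classes
  refine Set.ncard_le_ncard_of_injOn (fun M => Quotient.mk (isoSetoid n) (G M)) ?_ ?_
    (Set.toFinite _)
  · intro M hM
    obtain ⟨N, L, hL⟩ := hG M hM
    refine ⟨G M, ?_, rfl⟩
    apply spider_of L
    rw [hL]
    exact fun l hl => (hM.1 l hl).1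
  · intro M hM M' hM' h
    obtain ⟨N, L, hL⟩ := hG M hM
    obtain ⟨N', L', hL'⟩ := hG M' hM'
    obtain ⟨e⟩ : Nonempty (G M ≃g G M') := Quotient.exact h
    rw [← hL, ← hL', ty_eq_tyG L, ty_eq_tyG L', tyG_iso e]
    · rw [hL']
      exact fun l hl => (hM'.1 l hl).1
    · rw [hL]
      exact fun l hl => (hM.1 l hl).1

theorem classes_upper (n : ℕ) (hn : 1 ≤ n) :
    classes n (fun G => IsSpiderForest G ∧ ¬ ∀ k : ℤ, ShiftedAntimagic G k) ≤
      {M : Ty | M ∈ Gen n ∧ n < 100001 * legs M}.ncard := by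
  classical
  have : Nonempty (Fin n) := ⟨⟨0, hn⟩⟩
  have hb : ∀ q : Quotient (isoSetoid n), ∃ M : Ty,
      q ∈ (Quotient.mk (isoSetoid n)) ''
        {G | IsSpiderForest G ∧ ¬ ∀ k : ℤ, ShiftedAntimagic G k} →
      ∃ (G : SimpleGraph (Fin n)) (N : ℕ) (L : Legs G N), Quotient.mk (isoSetoid n) G = q ∧
        ty L = M ∧ M ∈ Gen n ∧ n < 100001 * legs M := by
    intro q
    by_cases hq : q ∈ (Quotient.mk (isoSetoid n)) ''
        {G | IsSpiderForest G ∧ ¬ ∀ k : ℤ, ShiftedAntimagic G k}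
    · obtain ⟨G, ⟨hG, hbad⟩, rfl⟩ := hq
      obtain ⟨N, ⟨L⟩⟩ := exists_legs G hG
      refine ⟨ty L, fun _ => ⟨G, N, L, rfl, rfl, ?_, ?_⟩⟩
      · have := ty_mem_gen L
        rwa [Fintype.card_fin] at this
      · rw [ty_legs]
        have hV := card_V L
        rw [Fintype.card_fin] at hV
        have hr := roots_le L
        have hlt : ∑ i, L.n i < 100000 * N := by
          by_contra h
          exact hbad fun k => of_legs G L (by omega) k
        omega
    · exact ⟨0, fun h => absurd h hq⟩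
  choose M hM using hb
  unfold classes
  refine Set.ncard_le_ncard_of_injOn M ?_ ?_ ((gen_finite n).subset fun M h => h.1)
  · intro q hq
    obtain ⟨G, N, L, -, -, h1, h2⟩ := hM q hq
    exact ⟨h1, h2⟩
  · intro q hq q' hq' h
    obtain ⟨G, N, L, h1, h2, -⟩ := hM q hq
    obtain ⟨G', N', L', h1', h2', -⟩ := hM q' hq'
    rw [← h1, ← h1']
    apply Quotient.sound
    exact iso_of_ty L L' (by rw [h2, h2', h])

/-- the count: few bad types -/
theorem types_le (n u : ℕ) (hu : 12 * 100001 ≤ u ^ 4) (hn : 16 * 100001 ≤ n) :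
    ({M : Ty | M ∈ Gen n ∧ n < 100001 * legs M}.ncard : ℝ) *
      (n : ℝ) ^ ((n / (4 * 100001) - 4) / (2 * (Nat.log 2 n) ^ 2 + 7 * (Nat.log 2 n) + 9)) ≤
      ((Can n).ncard : ℝ) * ((n + 1 : ℝ) *
      (2 : ℝ) ^ (n / (2 * (Nat.log 2 n) ^ 2 + 7 * (Nat.log 2 n) + 9)) *
      ((n + 1 : ℝ) ^ ((u ^ 4 + 1) ^ (2 * u ^ 2)) *
      ((n + (n / u ^ 4) * (2 * 100001)).choose ((n / u ^ 4) * (2 * 100001)) : ℝ))) := by
  set t := Nat.log 2 n with ht
  set s := 2 * t ^ 2 + 7 * t + 9 with hs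
  set r := (n / (4 * 100001) - 4) / s with hr
  have hnt : n < 2 ^ (t + 1) := Nat.lt_pow_succ_log_self (by norm_num) n
  -- each term
  have h1 : ∀ n' ∈ (range (n + 1)).filter (fun n' => 4 * 100001 * n' + n ≤ 4 * 100001 * n),
      (Can n').ncard * n ^ r ≤ (Can n).ncard * 2 ^ (n / s) := by
    intro n' hn'
    rw [mem_filter, mem_range] at hn'
    have h3 : n / (4 * 100001) ≤ n - n' := by
      apply Nat.div_le_of_le_mul
      omega
    have h4 : 4 ≤ n / (4 * 100001) := by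
      rw [Nat.le_div_iff_mul_le (by norm_num)]
      omega
    have h2 := lower_num n n' t hnt (by omega)
    refine le_trans ?_ h2
    apply Nat.mul_le_mul_left
    apply Nat.pow_le_pow_right (by omega)
    apply Nat.div_le_div_right
    omega
  have h5 : (∑ n' ∈ (range (n + 1)).filter (fun n' => 4 * 100001 * n' + n ≤ 4 * 100001 * n),
      (Can n').ncard) * n ^ r ≤ (n + 1) * ((Can n).ncard * 2 ^ (n / s)) := by
    rw [sum_mul]
    refine (sum_le_sum h1).trans ?_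
    rw [sum_const, smul_eq_mul]
    apply Nat.mul_le_mul_right
    calc _ ≤ (range (n + 1)).card := card_filter_le _ _
      _ = n + 1 := card_range _
  have h6 := upper 100001 (u ^ 4) n (by norm_num) hu
  have h7 := (part_up u).2
  have h8 : {M : Ty | M ∈ Gen n ∧ n < 100001 * legs M}.ncard * n ^ r ≤
      (Can n).ncard * ((n + 1) * 2 ^ (n / s) * ((n + 1) ^ ((u ^ 4 + 1) ^ (2 * u ^ 2)) *
        (n + (n / u ^ 4) * (2 * 100001)).choose ((n / u ^ 4) * (2 * 100001)))) := by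
    calc _ ≤ ((∑ n' ∈ (range (n + 1)).filter (fun n' => 4 * 100001 * n' + n ≤ 4 * 100001 * n),
        (Can n').ncard) * ((n + 1) ^ {l : Multiset ℕ | (∀ x ∈ l, 1 ≤ x) ∧ l.sum ≤ u ^ 4}.ncard *
        (n + (n / u ^ 4) * (2 * 100001)).choose ((n / u ^ 4) * (2 * 100001)))) * n ^ r :=
          Nat.mul_le_mul_right _ h6
      _ = ((∑ n' ∈ (range (n + 1)).filter (fun n' => 4 * 100001 * n' + n ≤ 4 * 100001 * n),
        (Can n').ncard) * n ^ r) * ((n + 1) ^ {l : Multiset ℕ | (∀ x ∈ l, 1 ≤ x) ∧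
          l.sum ≤ u ^ 4}.ncard *
        (n + (n / u ^ 4) * (2 * 100001)).choose ((n / u ^ 4) * (2 * 100001))) := by ring
      _ ≤ ((n + 1) * ((Can n).ncard * 2 ^ (n / s))) * ((n + 1) ^ ((u ^ 4 + 1) ^ (2 * u ^ 2)) *
        (n + (n / u ^ 4) * (2 * 100001)).choose ((n / u ^ 4) * (2 * 100001))) := by
          apply Nat.mul_le_mul h5
          apply Nat.mul_le_mul_right
          exact Nat.pow_le_pow_right (by omega) h7
      _ = _ := by ring
  exact_mod_cast h8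

theorem almost_all_types : ∃ δ : ℝ, 0 < δ ∧ ∃ n0 : ℕ, ∀ n : ℕ, n0 ≤ n →
    Real.exp (δ * n / Real.log n) *
      (classes n (fun G => IsSpiderForest G ∧ ¬ ∀ k : ℤ, ShiftedAntimagic G k) : ℝ) ≤
      (classes n IsSpiderForest : ℝ) := by
  obtain ⟨δ, hδ, n0, h0⟩ := final_arith 100001 (by norm_num)
  refine ⟨δ, hδ, max n0 (max (16 * 100001) (2 ^ (34 ^ 3))), fun n hn => ?_⟩
  have hn0 : n0 ≤ n := (le_max_left _ _).trans hn
  have hn1 : 16 * 100001 ≤ n := (le_max_left _ _).trans ((le_max_right _ _).trans hn)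
  have hn2 : 2 ^ (34 ^ 3) ≤ n := (le_max_right _ _).trans ((le_max_right _ _).trans hn)
  have ht : 34 ^ 3 ≤ Nat.log 2 n := Nat.le_log_of_pow_le (by norm_num) hn2
  obtain ⟨u, hu1, hu2⟩ : ∃ u : ℕ, u ^ 3 ≤ Nat.log 2 n ∧ Nat.log 2 n < (u + 1) ^ 3 := by
    refine ⟨Nat.nthRoot 3 (Nat.log 2 n), ?_, ?_⟩
    · exact Nat.pow_nthRoot_le (Or.inl (by norm_num))
    · exact Nat.lt_pow_nthRoot_add_one (by norm_num) _
  have hu : 34 ≤ u := by
    by_contra h
    have : (u + 1) ^ 3 ≤ 34 ^ 3 := Nat.pow_le_pow_left (by omega) 3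
    omega
  have hu4 : 12 * 100001 ≤ u ^ 4 := by
    calc 12 * 100001 ≤ 34 ^ 4 := by norm_num
      _ ≤ u ^ 4 := Nat.pow_le_pow_left hu 4
  have hA := h0 n hn0 u hu1 hu2
  have hB := types_le n u hu4 hn1
  have hC : (classes n (fun G => IsSpiderForest G ∧ ¬ ∀ k : ℤ, ShiftedAntimagic G k) : ℝ) ≤
      ({M : Ty | M ∈ Gen n ∧ n < 100001 * legs M}.ncard : ℝ) :=
    Nat.cast_le.2 (classes_upper n (by omega))
  have hD : ((Can n).ncard : ℝ) ≤ (classes n IsSpiderForest : ℝ) :=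
    Nat.cast_le.2 (classes_lower n)
  refine le_trans ?_ hD
  set X := (n : ℝ) ^ ((n / (4 * 100001) - 4) /
    (2 * (Nat.log 2 n) ^ 2 + 7 * (Nat.log 2 n) + 9)) with hX
  have hXpos : 0 < X := by
    have : (0 : ℝ) < n := by
      have : 0 < n := by omega
      exact_mod_cast this
    positivity
  set E := Real.exp (δ * n / Real.log n) with hE
  have hEpos : 0 < E := Real.exp_pos _
  set Y := (n + 1 : ℝ) *
      (2 : ℝ) ^ (n / (2 * (Nat.log 2 n) ^ 2 + 7 * (Nat.log 2 n) + 9)) *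
      ((n + 1 : ℝ) ^ ((u ^ 4 + 1) ^ (2 * u ^ 2)) *
      ((n + (n / u ^ 4) * (2 * 100001)).choose ((n / u ^ 4) * (2 * 100001)) : ℝ)) with hY
  have hA' : E * Y ≤ X := by exact_mod_cast hA
  rw [← mul_le_mul_iff_left₀ hXpos]
  calc E * (classes n (fun G => IsSpiderForest G ∧ ¬ ∀ k : ℤ, ShiftedAntimagic G k) : ℝ) * X
      ≤ E * ({M : Ty | M ∈ Gen n ∧ n < 100001 * legs M}.ncard : ℝ) * X := by gcongr
    _ = E * (({M : Ty | M ∈ Gen n ∧ n < 100001 * legs M}.ncard : ℝ) * X) := by ring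
    _ ≤ E * (((Can n).ncard : ℝ) * Y) := mul_le_mul_of_nonneg_left hB hEpos.le
    _ = ((Can n).ncard : ℝ) * (E * Y) := by ring
    _ ≤ ((Can n).ncard : ℝ) * X := mul_le_mul_of_nonneg_left hA' (by positivity)

end Pool.SpU
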