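import Mathlib

/-!
# SpU/SumCount

At most `C(n+d, d)` functions from a `d`-set to the natural numbers with sum at most `n`: add one
coordinate `n - ∑ g` and use Mathlib's count of `finsuppAntidiag`.
-/

namespace Pool.SpU

open Finset

/-- The function `g` with one more coordinate `n - ∑ g`. -/
noncomputable def sumCountExt {ι : Type*} [Fintype ι] (n : ℕ) (g : ι → ℕ) : Option ι →₀ ℕ :=
  Finsupp.equivFunOnFinite.symm fun o => o.elim (n - ∑ i, g i) g

theorem sumCountExt_some {ι : Type*} [Fintype ι] (n : ℕ) (g : ι → ℕ) (i : ι) :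
    sumCountExt n g (some i) = g i := by
  simp [sumCountExt]

theorem sumCountExt_none {ι : Type*} [Fintype ι] (n : ℕ) (g : ι → ℕ) :
    sumCountExt n g none = n - ∑ i, g i := by
  simp [sumCountExt]

theorem sum_count {ι : Type*} [Fintype ι] (n : ℕ) :
    {g : ι → ℕ | ∑ i, g i ≤ n}.Finite ∧
    {g : ι → ℕ | ∑ i, g i ≤ n}.ncard ≤ (n + Fintype.card ι).choose (Fintype.card ι) := by
  classical
  set T : Finset (Option ι →₀ ℕ) := (univ : Finset (Option ι)).finsuppAntidiag n with hT
  have hcard : (T : Set (Option ι →₀ ℕ)).ncard =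
      (n + Fintype.card ι).choose (Fintype.card ι) := by
    rw [Set.ncard_coe_finset, hT, Finset.card_finsuppAntidiag_nat_eq_choose, Finset.card_univ,
      Fintype.card_option]
    have h1 : Fintype.card ι + 1 + n - 1 = n + Fintype.card ι := by omega
    rw [h1]
    exact Nat.choose_symm_add
  have hmaps : ∀ g ∈ {g : ι → ℕ | ∑ i, g i ≤ n}, sumCountExt n g ∈ (T : Set (Option ι →₀ ℕ)) := by
    intro g hg
    have hg' : ∑ i, g i ≤ n := hg
    rw [Finset.mem_coe, hT, Finset.mem_finsuppAntidiag]
    refine ⟨?_, Finset.subset_univ _⟩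
    rw [Fintype.sum_option]
    simp only [sumCountExt_some, sumCountExt_none]
    omega
  have hinj : Set.InjOn (sumCountExt n) {g : ι → ℕ | ∑ i, g i ≤ n} := by
    intro g _ g' _ h
    funext i
    rw [← sumCountExt_some n g i, ← sumCountExt_some n g' i, h]
  have hfinT : (T : Set (Option ι →₀ ℕ)).Finite := T.finite_toSet
  refine ⟨Set.Finite.of_injOn hmaps hinj hfinT, ?_⟩
  rw [← hcard]
  exact Set.ncard_le_ncard_of_injOn (sumCountExt n) hmaps hinj hfinT

end Pool.SpU
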