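import Pool.Agent.SpU.Basic
import Pool.Agent.SpU.SumCount

/-!
# SpU/Attach

Number of types `M` with at most `R` components and at most `n` legs whose legs longer than
`K` are given (as the multiset `M'`).

Proof.  Let `l' = M'.toList`.  If `M.map (filter (K < ·)) = M'`, then there is a list `l` with `↑l = M`
and `l.map (filter (K < ·)) = l'`.  Put `g (j, k) = count (k+1) l[j]` for `j < l.length ≤ R`, `k < K`,
and `g (j, k) = 0` for other `j`.  Then `∑ g ≤ legs M ≤ n`, and `M` is the multiset of the
`l'[j] + ∑_k replicate (g (j,k)) (k+1)`, `j < l'.length`; so `M` is determined by `g`.  Use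
`sum_count` with `ι = Fin R × Fin K`.
-/

namespace Pool.SpU

open Finset

private theorem attach_lift {α β : Type*} (f : α → β) : ∀ (l' : List β) (s : Multiset α),
    s.map f = (l' : Multiset β) → ∃ l : List α, (l : Multiset α) = s ∧ l.map f = l'
  | [], s, h => by
      rw [Multiset.coe_nil, Multiset.map_eq_zero] at h
      exact ⟨[], by rw [h]; rfl, rfl⟩
  | b :: t, s, h => by
      classical
      rw [← Multiset.cons_coe, ← Multiset.map_eq_cons] at h
      obtain ⟨a, ha, hab, ht⟩ := h
      obtain ⟨l, hl, hl'⟩ := attach_lift f t (s.erase a) ht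
      refine ⟨a :: l, ?_, ?_⟩
      · rw [← Multiset.cons_coe, hl, Multiset.cons_erase ha]
      · rw [List.map_cons, hab, hl']

private theorem attach_split (K : ℕ) (m : Multiset ℕ) (hm : ∀ x ∈ m, 1 ≤ x) :
    m.filter (K < ·) + ∑ k : Fin K, Multiset.replicate (m.count (k.val + 1)) (k.val + 1) = m := by
  ext x
  rw [Multiset.count_add, Multiset.count_filter, Multiset.count_sum']
  simp only [Multiset.count_replicate]
  by_cases hx : K < x
  · rw [if_pos hx]
    have : ∑ k : Fin K, (if k.val + 1 = x then m.count (k.val + 1) else 0) = 0 := by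
      refine Finset.sum_eq_zero fun k _ => ?_
      rw [if_neg]
      have := k.isLt
      omega
    rw [this, add_zero]
  · rw [if_neg hx, zero_add]
    rcases Nat.eq_zero_or_pos x with h0 | h0
    · have hc : m.count x = 0 := by
        rw [Multiset.count_eq_zero]
        intro h
        have := hm x h
        omega
      rw [hc]
      refine Finset.sum_eq_zero fun k _ => ?_
      rw [if_neg]
      omega
    · rw [Finset.sum_eq_single (⟨x - 1, by omega⟩ : Fin K)]
      · have h1 : x - 1 + 1 = x := by omega
        simp only [h1, if_true]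
      · intro k _ hk
        rw [if_neg]
        intro h
        apply hk
        apply Fin.ext
        show k.val = x - 1
        omega
      · intro h
        exact absurd (Finset.mem_univ _) h

private theorem attach_count_le (K : ℕ) (m : Multiset ℕ) :
    ∑ k : Fin K, m.count (k.val + 1) ≤ Multiset.card m := by
  have h1 : ∑ k : Fin K, m.count (k.val + 1) = ∑ x ∈ (univ : Finset (Fin K)).image (fun k => k.val + 1), m.count x := by
    rw [Finset.sum_image]
    intro a _ b _ hab
    have : a.val + 1 = b.val + 1 := hab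
    exact Fin.ext (by omega)
  rw [h1]
  calc ∑ x ∈ (univ : Finset (Fin K)).image (fun k => k.val + 1), m.count x
      ≤ ∑ x ∈ (univ : Finset (Fin K)).image (fun k => k.val + 1) ∪ m.toFinset, m.count x :=
        Finset.sum_le_sum_of_subset Finset.subset_union_left
    _ = Multiset.card m := Multiset.sum_count_eq_card fun a ha =>
        Finset.mem_union_right _ (Multiset.mem_toFinset.mpr ha)

private theorem attach_sum (f : Multiset ℕ → ℕ) (hf : f 0 = 0) : ∀ (l : List (Multiset ℕ)) (R : ℕ),
    ∑ j ∈ range R, f (l.getD j 0) ≤ (l.map f).sum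
  | [], R => by simp [hf]
  | a :: l, 0 => by simp
  | a :: l, R + 1 => by
      rw [Finset.sum_range_succ', List.map_cons, List.sum_cons]
      have h1 := attach_sum f hf l R
      have h2 : ∑ j ∈ range R, f ((a :: l).getD (j + 1) 0) = ∑ j ∈ range R, f (l.getD j 0) := rfl
      have h3 : (a :: l).getD 0 0 = a := rfl
      rw [h2, h3]
      omega

theorem attach_count (K R n : ℕ) (M' : Ty) :
    {M : Ty | M.map (fun l => l.filter (K < ·)) = M' ∧ Multiset.card M ≤ R ∧
      (∀ l ∈ M, ∀ x ∈ l, 1 ≤ x) ∧ legs M ≤ n}.Finite ∧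
    {M : Ty | M.map (fun l => l.filter (K < ·)) = M' ∧ Multiset.card M ≤ R ∧
      (∀ l ∈ M, ∀ x ∈ l, 1 ≤ x) ∧ legs M ≤ n}.ncard ≤ (n + R * K).choose (R * K) := by
  obtain ⟨l', hl'⟩ : ∃ l' : List (Multiset ℕ), (l' : Multiset (Multiset ℕ)) = M' := ⟨M'.toList, M'.coe_toList⟩
  set G : Set (Fin R × Fin K → ℕ) := {g | ∑ i, g i ≤ n} with hG
  let F : (Fin R × Fin K → ℕ) → Ty := fun g =>
    ((l'.mapIdx fun j a => a + ∑ k : Fin K, Multiset.replicate
      (if h : j < R then g (⟨j, h⟩, k) else 0) (k.val + 1) : List (Multiset ℕ)) : Multiset (Multiset ℕ))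
  have hsub : {M : Ty | M.map (fun l => l.filter (K < ·)) = M' ∧ Multiset.card M ≤ R ∧
      (∀ l ∈ M, ∀ x ∈ l, 1 ≤ x) ∧ legs M ≤ n} ⊆ F '' G := by
    rintro M ⟨h1, h2, h3, h4⟩
    rw [← hl'] at h1
    obtain ⟨l, hl, hl2⟩ := attach_lift _ l' M h1
    refine ⟨fun q => (l.getD q.1.val 0).count (q.2.val + 1), ?_, ?_⟩
    · show ∑ q : Fin R × Fin K, (l.getD q.1.val 0).count (q.2.val + 1) ≤ n
      rw [Fintype.sum_prod_type]
      show ∑ j : Fin R, ∑ k : Fin K, (l.getD j.val 0).count (k.val + 1) ≤ n
      have h5 : ∑ j : Fin R, ∑ k : Fin K, (l.getD j.val 0).count (k.val + 1) ≤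
          ∑ j : Fin R, Multiset.card (l.getD j.val 0) :=
        Finset.sum_le_sum fun j _ => attach_count_le K _
      have h6 : ∑ j : Fin R, Multiset.card (l.getD j.val 0) = ∑ j ∈ range R, Multiset.card (l.getD j 0) :=
        Fin.sum_univ_eq_sum_range (fun j => Multiset.card (l.getD j 0)) R
      have h7 := attach_sum Multiset.card rfl l R
      have h8 : (l.map Multiset.card).sum = legs M := by
        rw [← hl]
        unfold legs
        rw [Multiset.map_coe, Multiset.sum_coe]
      omega
    · show ((l'.mapIdx fun j a => a + ∑ k : Fin K, Multiset.replicate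
        (if h : j < R then (l.getD j 0).count (k.val + 1) else 0) (k.val + 1) : List (Multiset ℕ)) :
          Multiset (Multiset ℕ)) = M
      rw [← hl]
      congr 1
      rw [← hl2]
      refine List.ext_getElem (by simp) fun j hj hj' => ?_
      have hjR : j < R := by
        have : l.length ≤ R := by
          rw [← hl] at h2
          exact h2
        omega
      have hmem : l[j] ∈ M := by
        rw [← hl]
        exact List.getElem_mem hj'
      have hget : l.getD j 0 = l[j] := by
        rw [List.getD_eq_getElem?_getD, List.getElem?_eq_getElem hj', Option.getD_some]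
      simp only [List.getElem_mapIdx, List.getElem_map, dif_pos hjR, hget]
      exact attach_split K _ (h3 _ hmem)
  obtain ⟨h5, h6⟩ := sum_count (ι := Fin R × Fin K) n
  have hfin : (F '' G).Finite := h5.image F
  refine ⟨hfin.subset hsub, ?_⟩
  refine (Set.ncard_le_ncard hsub hfin).trans ((Set.ncard_image_le h5).trans ?_)
  rw [Fintype.card_prod, Fintype.card_fin, Fintype.card_fin] at h6
  exact h6

end Pool.SpU
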