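import Pool.Agent.SpU.Defs

/-!
# SpU/Basic

Simple facts on `size` and `legs`.
-/

namespace Pool.SpU

open Finset

theorem size_zero : size 0 = 0 := by
  simp [size]

theorem size_cons (l : Multiset ℕ) (M : Ty) : size (l ::ₘ M) = l.sum + 1 + size M := by
  simp [size]

theorem size_add (M M' : Ty) : size (M + M') = size M + size M' := by
  simp [size]

theorem legs_add (M M' : Ty) : legs (M + M') = legs M + legs M' := by
  simp [legs]

theorem card_le_size (M : Ty) : Multiset.card M ≤ size M := by
  induction M using Multiset.induction_on with
  | empty => simp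
  | cons l M ih =>
    rw [size_cons, Multiset.card_cons]
    omega

/-- members of `M` have sum less than `size M` -/
theorem sum_lt_size (M : Ty) (l : Multiset ℕ) (h : l ∈ M) : l.sum < size M := by
  obtain ⟨M', rfl⟩ := Multiset.exists_cons_of_mem h
  rw [size_cons]
  omega

/-- if all members of `M` have sum at least `s`, then `card M * (s + 1) ≤ size M` -/
theorem card_mul_le (M : Ty) (s : ℕ) (h : ∀ l ∈ M, s ≤ l.sum) :
    Multiset.card M * (s + 1) ≤ size M := by
  induction M using Multiset.induction_on with
  | empty => simp
  | cons l M ih =>
    have h1 := h l (Multiset.mem_cons_self l M)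
    have h2 := ih (fun l' hl' => h l' (Multiset.mem_cons_of_mem hl'))
    rw [size_cons, Multiset.card_cons, add_mul]
    omega

theorem size_le_of_le (M M' : Ty) (h : M ≤ M') : size M ≤ size M' := by
  obtain ⟨N, rfl⟩ := Multiset.le_iff_exists_add.1 h
  rw [size_add]
  omega

private theorem Basic_card_le_sum (l : Multiset ℕ) (h : ∀ x ∈ l, 1 ≤ x) :
    Multiset.card l ≤ l.sum := by
  induction l using Multiset.induction_on with
  | empty => simp
  | cons a l ih =>
    have h1 := h a (Multiset.mem_cons_self a l)
    have h2 := ih (fun x hx => h x (Multiset.mem_cons_of_mem hx))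
    rw [Multiset.card_cons, Multiset.sum_cons]
    omega

/-- if all parts are positive, there are at most `size M` legs -/
theorem legs_le_size (M : Ty) (h : ∀ l ∈ M, ∀ x ∈ l, 1 ≤ x) : legs M ≤ size M := by
  induction M using Multiset.induction_on with
  | empty => simp [legs, size]
  | cons l M ih =>
    have h1 := Basic_card_le_sum l (h l (Multiset.mem_cons_self l M))
    have h2 := ih (fun l' hl' => h l' (Multiset.mem_cons_of_mem hl'))
    have h3 : legs (l ::ₘ M) = Multiset.card l + legs M := by simp [legs]
    rw [size_cons, h3]
    omega

end Pool.SpU
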