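import Mathlib

/-!
# SpU/BinomLe

The division in `n / u ^ 4` on the left is the division in `ℕ`.

`C(n+D, D) ≤ (n+D)^D/D!` (`Nat.choose_le_pow_div`) and `D^D/D! ≤ e^D`
(`Real.pow_div_factorial_le_exp`), so `log C(n+D,D) ≤ D log(e(n+D)/D)`; here `D = (n/u^4) 2A`, so
`D ≤ x := 2An/u^4` and `D log(e(n+D)/D) ≤ x log(e(n+x)/x) ≤ (2An/u^4) (1 + log(1+u^4))` (the function
`D ↦ D log(e(n+D)/D)` is increasing, by Bernoulli's inequality; if `D = 0` the claim is trivial).
-/

namespace Pool.SpU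

open Finset

private theorem binomLe_choose {n D : ℕ} (hD : 0 < D) :
    Real.log ((n + D).choose D : ℝ) ≤ D * (1 + Real.log (1 + (n : ℝ) / D)) := by
  have hD' : (0 : ℝ) < D := by exact_mod_cast hD
  have hn' : (0 : ℝ) ≤ n := Nat.cast_nonneg n
  have h1 : ((n + D).choose D : ℝ) ≤ ((n + D : ℕ) : ℝ) ^ D / (D.factorial : ℝ) :=
    Nat.choose_le_pow_div D (n + D)
  have h2 : (D : ℝ) ^ D / (D.factorial : ℝ) ≤ Real.exp D := Real.pow_div_factorial_le_exp (D : ℝ) hD'.le D
  have h3 : ((n + D : ℕ) : ℝ) ^ D / (D.factorial : ℝ) = (1 + (n : ℝ) / D) ^ D * ((D : ℝ) ^ D / (D.factorial : ℝ)) := by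
    rw [← mul_div_assoc, ← mul_pow]
    congr 2
    push_cast
    field_simp
    ring
  have hb : 0 < 1 + (n : ℝ) / D := by positivity
  have h4 : ((n + D).choose D : ℝ) ≤ (1 + (n : ℝ) / D) ^ D * Real.exp D := by
    rw [h3] at h1
    exact h1.trans (mul_le_mul_of_nonneg_left h2 (by positivity))
  have h5 : (0 : ℝ) < (n + D).choose D := by exact_mod_cast Nat.choose_pos (by omega)
  have h6 := Real.log_le_log h5 h4
  rw [Real.log_mul (by positivity) (Real.exp_pos _).ne', Real.log_exp, Real.log_pow] at h6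
  linarith

private theorem binomLe_mono {n D x : ℝ} (hn : 0 ≤ n) (hD : 0 < D) (hx : D ≤ x) :
    D * Real.log (1 + n / D) ≤ x * Real.log (1 + n / x) := by
  have hx0 : 0 < x := by linarith
  have hs : 0 ≤ n / x := by positivity
  have h1 : 1 + (x / D) * (n / x) ≤ (1 + n / x) ^ (x / D) :=
    one_add_mul_self_le_rpow_one_add (by linarith) ((one_le_div hD).mpr hx)
  have h2 : (x / D) * (n / x) = n / D := by field_simp
  rw [h2] at h1
  have h3 := Real.log_le_log (by positivity) h1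
  rw [Real.log_rpow (by linarith)] at h3
  calc D * Real.log (1 + n / D) ≤ D * (x / D * Real.log (1 + n / x)) :=
        mul_le_mul_of_nonneg_left h3 hD.le
    _ = x * Real.log (1 + n / x) := by field_simp

theorem binom_le (A n u : ℕ) (hA : 1 ≤ A) (hu : 1 ≤ u) (hn : 1 ≤ n) :
    Real.log ((n + (n / u ^ 4) * (2 * A)).choose ((n / u ^ 4) * (2 * A)) : ℝ) ≤
      2 * A * n / u ^ 4 * (1 + Real.log (1 + (u : ℝ) ^ 4)) := by
  have hA' : (1 : ℝ) ≤ A := by exact_mod_cast hA
  have hu' : (1 : ℝ) ≤ u := by exact_mod_cast hu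
  have hn' : (1 : ℝ) ≤ n := by exact_mod_cast hn
  have hu4 : (1 : ℝ) ≤ (u : ℝ) ^ 4 := one_le_pow₀ hu'
  have hlog : 0 ≤ Real.log (1 + (u : ℝ) ^ 4) := Real.log_nonneg (by linarith)
  set D := (n / u ^ 4) * (2 * A) with hD
  set x : ℝ := 2 * A * n / u ^ 4 with hx
  have hx0 : 0 < x := by rw [hx]; positivity
  rcases Nat.eq_zero_or_pos D with h0 | h0
  · rw [h0]
    have : Real.log (((n + 0).choose 0 : ℕ) : ℝ) = 0 := by simp
    rw [this]
    exact mul_nonneg hx0.le (by linarith)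
  · have hDx : (D : ℝ) ≤ x := by
      rw [hD, hx]
      have h1 : ((n / u ^ 4 : ℕ) : ℝ) ≤ (n : ℝ) / (u : ℝ) ^ 4 := by
        have := @Nat.cast_div_le ℝ _ _ _ n (u ^ 4)
        push_cast at this
        exact this
      push_cast
      calc ((n / u ^ 4 : ℕ) : ℝ) * (2 * A) ≤ (n : ℝ) / (u : ℝ) ^ 4 * (2 * A) :=
            mul_le_mul_of_nonneg_right h1 (by positivity)
        _ = 2 * A * n / u ^ 4 := by ring
    have hD' : (0 : ℝ) < D := by exact_mod_cast h0
    refine (binomLe_choose h0).trans ?_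
    have h2 := binomLe_mono (n := (n : ℝ)) (by linarith) hD' hDx
    have h3 : (n : ℝ) / x ≤ (u : ℝ) ^ 4 := by
      rw [div_le_iff₀ hx0, hx]
      have : (u : ℝ) ^ 4 * (2 * A * n / u ^ 4) = 2 * A * n := by field_simp
      rw [this]
      nlinarith
    have h4 : Real.log (1 + (n : ℝ) / x) ≤ Real.log (1 + (u : ℝ) ^ 4) :=
      Real.log_le_log (by positivity) (by linarith)
    have h5 : x * Real.log (1 + (n : ℝ) / x) ≤ x * Real.log (1 + (u : ℝ) ^ 4) :=
      mul_le_mul_of_nonneg_left h4 hx0.le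
    calc (D : ℝ) * (1 + Real.log (1 + (n : ℝ) / D)) = D + D * Real.log (1 + (n : ℝ) / D) := by ring
      _ ≤ x + x * Real.log (1 + (u : ℝ) ^ 4) := by linarith
      _ = x * (1 + Real.log (1 + (u : ℝ) ^ 4)) := by ring

end Pool.SpU
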