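import Pool.Agent.SpA.Final

/-!
# SpU/Defs: unlabelled spider forests (MP_9fc547_co), paper note 3509 (helper75)

A *type* is a multiset of multisets of natural numbers: for every root (component) the multiset of
the lengths of its legs.
-/

namespace Pool.SpU

open Finset Pool.SpA

/-- types -/
abbrev Ty := Multiset (Multiset ℕ)

/-- number of vertices of a forest of type `M` -/
def size (M : Ty) : ℕ := (M.map fun l => l.sum + 1).sum

/-- number of legs -/
def legs (M : Ty) : ℕ := (M.map fun l => Multiset.card l).sum

/-- all types with `n` vertices -/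
def Gen (n : ℕ) : Set Ty := {M | (∀ l ∈ M, ∀ x ∈ l, 1 ≤ x) ∧ size M = n}

/-- the types with `n` vertices all of whose components have at least three legs -/
def Can (n : ℕ) : Set Ty := {M | (∀ l ∈ M, 3 ≤ Multiset.card l ∧ ∀ x ∈ l, 1 ≤ x) ∧ size M = n}

/-- the type of a description by legs -/
def ty {V : Type*} [DecidableEq V] {G : SimpleGraph V} {N : ℕ} (L : Legs G N) : Ty :=
  (univ.image L.root).val.map fun c => (univ.filter fun i => L.root i = c).val.map L.n

/-- isomorphism of graphs on `Fin n` -/
def isoSetoid (n : ℕ) : Setoid (SimpleGraph (Fin n)) where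
  r G H := Nonempty (G ≃g H)
  iseqv := ⟨fun _ => ⟨SimpleGraph.Iso.refl⟩, fun ⟨e⟩ => ⟨e.symm⟩, fun ⟨e⟩ ⟨f⟩ => ⟨e.trans f⟩⟩

/-- the number of isomorphism classes of the graphs on `Fin n` with the property `P` -/
noncomputable def classes (n : ℕ) (P : SimpleGraph (Fin n) → Prop) : ℕ :=
  ((Quotient.mk (isoSetoid n)) '' {G | P G}).ncard

/-- the vertices which can be reached from `w` without entering `v` -/
def branch {V : Type*} (G : SimpleGraph V) (v w : V) : Set V :=
  {u | Relation.ReflTransGen (fun a b => G.Adj a b ∧ b ≠ v) w u}

open Classical in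
/-- the type of a graph, read off the vertices of degree at least three -/
noncomputable def tyG {V : Type*} [Fintype V] (G : SimpleGraph V) : Ty :=
  (univ.filter fun v => 3 ≤ deg G v).val.map fun v =>
    (univ.filter fun w => G.Adj v w).val.map fun w => (branch G v w).ncard

end Pool.SpU
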