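import Mathlib

/-!
# SpU/MsCount

At most `(n+1)^|S|` multisets with at most `n` elements, all in the finite set `S`.
(helper22 for helper75)
-/

namespace Pool.SpU

open Finset

theorem ms_count {α : Type*} [DecidableEq α] (S : Finset α) (n : ℕ) :
    {M : Multiset α | (∀ x ∈ M, x ∈ S) ∧ Multiset.card M ≤ n}.Finite ∧
      {M : Multiset α | (∀ x ∈ M, x ∈ S) ∧ Multiset.card M ≤ n}.ncard ≤ (n + 1) ^ S.card := by
  classical
  let F : Multiset α → (S → Fin (n + 1)) := fun M x => ⟨min (Multiset.count x.1 M) n, by omega⟩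
  have hmaps : Set.MapsTo F {M : Multiset α | (∀ x ∈ M, x ∈ S) ∧ Multiset.card M ≤ n}
      (Set.univ : Set (S → Fin (n + 1))) := fun _ _ => Set.mem_univ _
  have hinj : Set.InjOn F {M : Multiset α | (∀ x ∈ M, x ∈ S) ∧ Multiset.card M ≤ n} := by
    intro M hM M' hM' h
    obtain ⟨h1, h2⟩ := hM
    obtain ⟨h1', h2'⟩ := hM'
    ext x
    by_cases hx : x ∈ S
    · have h3 : min (Multiset.count x M) n = min (Multiset.count x M') n :=
        congrArg Fin.val (congrFun h ⟨x, hx⟩)
      have h4 : Multiset.count x M ≤ n := (Multiset.count_le_card x M).trans h2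
      have h5 : Multiset.count x M' ≤ n := (Multiset.count_le_card x M').trans h2'
      omega
    · rw [Multiset.count_eq_zero_of_notMem (fun hh => hx (h1 x hh)),
        Multiset.count_eq_zero_of_notMem (fun hh => hx (h1' x hh))]
  refine ⟨Set.Finite.of_injOn hmaps hinj Set.finite_univ, ?_⟩
  have h := Set.ncard_le_ncard_of_injOn F hmaps hinj Set.finite_univ
  rw [Set.ncard_univ, Nat.card_eq_fintype_card, Fintype.card_fun, Fintype.card_fin,
    Fintype.card_coe] at h
  exact h

end Pool.SpU
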