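import Pool.Agent.SpU.Basic
import Pool.Agent.SpU.MsCount

/-!
# SpU/FinTy

There are finitely many types with `n` vertices. (helper22 for helper75)
-/

namespace Pool.SpU

open Finset

/-- finitely many multisets of positive numbers with sum at most `T` -/
theorem parts_finite (T : ℕ) : {l : Multiset ℕ | (∀ x ∈ l, 1 ≤ x) ∧ l.sum ≤ T}.Finite := by
  refine (ms_count (Finset.range (T + 1)) T).1.subset ?_
  rintro l ⟨h1, h2⟩
  constructor
  · intro x hx
    rw [Finset.mem_range]
    have h3 := Multiset.single_le_sum (fun y _ => Nat.zero_le y) x hx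
    omega
  · have h3 := Multiset.card_nsmul_le_sum (s := l) (a := 1) h1
    rw [smul_eq_mul, mul_one] at h3
    exact h3.trans h2

theorem gen_finite (n : ℕ) : (Gen n).Finite := by
  classical
  refine (ms_count (parts_finite n).toFinset n).1.subset ?_
  rintro M ⟨h1, h2⟩
  constructor
  · intro l hl
    rw [Set.Finite.mem_toFinset]
    have h3 := sum_lt_size M l hl
    exact ⟨h1 l hl, by omega⟩
  · rw [← h2]
    exact card_le_size M

theorem can_finite (n : ℕ) : (Can n).Finite := by
  refine (gen_finite n).subset ?_
  rintro M ⟨h1, h2⟩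
  exact ⟨fun l hl => (h1 l hl).2, h2⟩

end Pool.SpU
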