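import Pool.Agent.SpU.Defs

/-!
# SpU/IsoMatch

From the equality of the multisets get a bijection between the sets of roots and, for each root, a
bijection between the legs at the corresponding roots which preserves the lengths.
-/

namespace Pool.SpU

open Finset Pool.SpA

/-- equal multisets of values give a bijection of the index sets -/
theorem exists_equiv_of_map_eq {ι κ β : Type*} [Fintype ι] [Fintype κ] (f : ι → β) (g : κ → β)
    (h : (univ : Finset ι).val.map f = (univ : Finset κ).val.map g) :
    ∃ σ : ι ≃ κ, ∀ i, g (σ i) = f i := by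
  classical
  have hcard : ∀ b, Fintype.card {i // f i = b} = Fintype.card {k // g k = b} := by
    intro b
    have h1 := congrArg (Multiset.count b) h
    rw [Multiset.count_map, Multiset.count_map] at h1
    rw [Fintype.card_subtype, Fintype.card_subtype, Finset.card_def, Finset.card_def,
      Finset.filter_val, Finset.filter_val]
    simpa [eq_comm] using h1
  have he : ∀ b, Nonempty ({i // f i = b} ≃ {k // g k = b}) := fun b =>
    Fintype.card_eq.mp (hcard b)
  let e : ∀ b, {i // f i = b} ≃ {k // g k = b} := fun b => (he b).some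
  refine ⟨(Equiv.sigmaFiberEquiv f).symm.trans
    ((Equiv.sigmaCongrRight e).trans (Equiv.sigmaFiberEquiv g)), fun i => ?_⟩
  exact (e (f i) ⟨i, rfl⟩).2

theorem isoMatch_finset {ι κ β : Type*} (s : Finset ι) (t : Finset κ) (f : ι → β) (g : κ → β)
    (h : s.val.map f = t.val.map g) : ∃ e : s ≃ t, ∀ i : s, g (e i).1 = f i.1 := by
  apply exists_equiv_of_map_eq (fun i : s => f i.1) (fun k : t => g k.1)
  have h1 : (univ : Finset s).val.map (fun i : s => f i.1) = s.val.map f := by
    rw [Finset.univ_eq_attach, Finset.attach_val]
    exact Multiset.attach_map_val' s.val f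
  have h2 : (univ : Finset t).val.map (fun k : t => g k.1) = t.val.map g := by
    rw [Finset.univ_eq_attach, Finset.attach_val]
    exact Multiset.attach_map_val' t.val g
  rw [h1, h2, h]

/-- the two descriptions correspond to each other -/
theorem exists_match {V W : Type*} [DecidableEq V] [DecidableEq W] {G : SimpleGraph V}
    {H : SimpleGraph W} {N N' : ℕ} (L : Legs G N) (L' : Legs H N') (h : ty L = ty L') :
    ∃ σ : Fin N ≃ Fin N', (∀ i, L'.n (σ i) = L.n i) ∧
      ∀ i j, L'.root (σ i) = L'.root (σ j) ↔ L.root i = L.root j := by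
  classical
  unfold ty at h
  obtain ⟨e, he⟩ := isoMatch_finset _ _ _ _ h
  have hfib : ∀ c : (univ.image L.root : Finset V),
      ∃ d : (univ.filter fun i => L.root i = c.1 : Finset (Fin N)) ≃
        (univ.filter fun i => L'.root i = (e c).1 : Finset (Fin N')),
        ∀ i, L'.n (d i).1 = L.n i.1 := by
    intro c
    exact isoMatch_finset _ _ _ _ (he c).symm
  choose d hd using hfib
  -- the value of the bijection
  let τ : (c : (univ.image L.root : Finset V)) → (i : Fin N) → L.root i = c.1 → Fin N' :=
    fun c i hi => (d c ⟨i, by simp [hi]⟩).1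
  have hτroot : ∀ c i hi, L'.root (τ c i hi) = (e c).1 := by
    intro c i hi
    exact (Finset.mem_filter.mp (d c ⟨i, by simp [hi]⟩).2).2
  have hτn : ∀ c i hi, L'.n (τ c i hi) = L.n i := fun c i hi => hd c ⟨i, by simp [hi]⟩
  have hτinj : ∀ c i j hi hj, τ c i hi = τ c j hj → i = j := by
    intro c i j hi hj hij
    have h1 := (d c).injective (Subtype.ext hij)
    exact congrArg Subtype.val h1
  let rt : Fin N → (univ.image L.root : Finset V) := fun i => ⟨L.root i, by simp⟩
  have hτc : ∀ c i (hi : L.root i = c.1), τ (rt i) i rfl = τ c i hi := by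
    intro c i hi
    have hc : rt i = c := Subtype.ext hi
    subst hc
    rfl
  let σ : Fin N → Fin N' := fun i => τ (rt i) i rfl
  have hroot : ∀ i, L'.root (σ i) = (e (rt i)).1 := fun i => hτroot (rt i) i rfl
  have hiff : ∀ i j, L'.root (σ i) = L'.root (σ j) ↔ L.root i = L.root j := by
    intro i j
    rw [hroot, hroot]
    constructor
    · intro h1
      have h2 := e.injective (Subtype.ext h1)
      exact congrArg Subtype.val h2
    · intro h1
      have h2 : rt i = rt j := Subtype.ext h1
      rw [h2]
  have hbij : Function.Bijective σ := by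
    constructor
    · intro i j hij
      have h1 : L.root i = L.root j := (hiff i j).1 (by rw [hij])
      have h2 : σ i = τ (rt j) i h1 := hτc (rt j) i h1
      exact hτinj (rt j) i j h1 rfl (by rw [← h2, hij])
    · intro j
      obtain ⟨c, hc⟩ := e.surjective ⟨L'.root j, by simp⟩
      have hj : j ∈ (univ.filter fun i => L'.root i = (e c).1 : Finset (Fin N')) := by
        rw [hc]
        simp
      obtain ⟨i, hi⟩ := (d c).surjective ⟨j, hj⟩
      have hir : L.root i.1 = c.1 := (Finset.mem_filter.mp i.2).2
      refine ⟨i.1, ?_⟩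
      have h2 : σ i.1 = τ c i.1 hir := hτc c i.1 hir
      rw [h2]
      change (d c i).1 = j
      rw [hi]
  exact ⟨Equiv.ofBijective σ hbij, fun i => hτn (rt i) i rfl, hiff⟩

end Pool.SpU
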