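import Pool.Agent.SpU.FinTy

/-!
# SpU/Lower

Adding `r` different components with `s` edges each, and one component `{1,1,q-3}`.

Proof.  Map a pair `(M', A)`, `M' ∈ Can n'`, `A` an `r`-subset of the set `Λ` of the `l` with at
least three positive parts and sum `s`, to `M = M' + A.val + {{1,1,q-3}} ∈ Can n`.  For given `M` the
pair is determined by `A.val`, a submultiset of `M.filter (sum = s)`, which has at most `n/(s+1)`
elements (`card_mul_le`), so at most `2^(n/(s+1))` submultisets (`Multiset.powerset`).
-/

namespace Pool.SpU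

open Finset

theorem Lower_size_val (A : Finset (Multiset ℕ)) (s : ℕ) (h : ∀ l ∈ A, l.sum = s) :
    size A.val = A.card * (s + 1) := by
  unfold size
  have h1 : A.val.map (fun l => l.sum + 1) = A.val.map (fun _ => s + 1) :=
    Multiset.map_congr rfl fun l hl => by rw [h l (Finset.mem_val.mp hl)]
  rw [h1, Multiset.map_const', Multiset.sum_replicate, smul_eq_mul]
  rfl

theorem lower (n n' r s q : ℕ) (hq : 4 ≤ q) (hn : n' + r * (s + 1) + q = n) :
    (Can n').ncard * ({l : Multiset ℕ | 3 ≤ Multiset.card l ∧ (∀ x ∈ l, 1 ≤ x) ∧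
      l.sum = s}.ncard).choose r ≤ (Can n).ncard * 2 ^ (n / (s + 1)) := by
  classical
  set Λ : Set (Multiset ℕ) := {l : Multiset ℕ | 3 ≤ Multiset.card l ∧ (∀ x ∈ l, 1 ≤ x) ∧
      l.sum = s} with hΛ
  have hΛf : Λ.Finite := (parts_finite s).subset fun l hl => ⟨hl.2.1, hl.2.2.le⟩
  obtain ⟨X, hX⟩ : ∃ X : Multiset ℕ, X = {1, 1, q - 3} := ⟨_, rfl⟩
  have hXc : Multiset.card X = 3 := by rw [hX]; rfl
  have hXs : X.sum + 1 = q := by
    rw [hX]
    simp only [Multiset.insert_eq_cons, Multiset.sum_cons, Multiset.sum_singleton]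
    omega
  have hXp : ∀ x ∈ X, 1 ≤ x := by
    intro x hx
    rw [hX] at hx
    simp only [Multiset.insert_eq_cons, Multiset.mem_cons, Multiset.mem_singleton] at hx
    omega
  rw [Set.ncard_eq_toFinset_card _ (can_finite n'), Set.ncard_eq_toFinset_card _ hΛf,
    Set.ncard_eq_toFinset_card _ (can_finite n), ← Finset.card_powersetCard,
    ← Finset.card_product, mul_comm]
  refine Finset.card_le_mul_card_image_of_maps_to
    (f := fun p : Ty × Finset (Multiset ℕ) => p.1 + p.2.val + {X}) ?_ _ ?_
  · rintro ⟨M, A⟩ hp
    rw [Finset.mem_product, Finset.mem_powersetCard, Set.Finite.mem_toFinset] at hp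
    obtain ⟨hM, hA, hAc⟩ := hp
    rw [Set.Finite.mem_toFinset]
    have hA' : ∀ l ∈ A, l ∈ Λ := fun l hl => hΛf.mem_toFinset.mp (hA hl)
    refine ⟨?_, ?_⟩
    · intro l hl
      rw [Multiset.mem_add, Multiset.mem_add, Multiset.mem_singleton, Finset.mem_val] at hl
      rcases hl with (hl | hl) | hl
      · exact hM.1 l hl
      · exact ⟨(hA' l hl).1, (hA' l hl).2.1⟩
      · rw [hl]
        exact ⟨hXc.ge, hXp⟩
    · show size (M + A.val + {X}) = n
      rw [size_add, size_add, hM.2, Lower_size_val A s fun l hl => (hA' l hl).2.2]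
      have h1 : size ({X} : Ty) = q := by
        unfold size
        rw [Multiset.map_singleton, Multiset.sum_singleton, hXs]
      have h2 : A.card = r := hAc
      rw [h1, h2, hn]
  · intro M hM
    rw [Set.Finite.mem_toFinset] at hM
    have hcard : Multiset.card (M.filter fun l => l.sum = s) ≤ n / (s + 1) := by
      rw [Nat.le_div_iff_mul_le (Nat.succ_pos s)]
      calc _ ≤ size (M.filter fun l => l.sum = s) :=
            card_mul_le _ s fun l hl => (Multiset.mem_filter.mp hl).2.ge
        _ ≤ size M := size_le_of_le _ _ (Multiset.filter_le _ _)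
        _ = n := hM.2
    calc _ ≤ ((M.filter fun l => l.sum = s).powerset.toFinset).card := by
          refine Finset.card_le_card_of_injOn (fun p => p.2.val) ?_ ?_
          · rintro ⟨M', A⟩ hp
            rw [Finset.mem_coe, Finset.mem_filter, Finset.mem_product,
              Finset.mem_powersetCard] at hp
            obtain ⟨⟨-, hA, -⟩, hf⟩ := hp
            rw [Finset.mem_coe, Multiset.mem_toFinset, Multiset.mem_powerset,
              Multiset.le_filter]
            refine ⟨?_, fun l hl => (hΛf.mem_toFinset.mp (hA hl)).2.2⟩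
            rw [← hf]
            exact (Multiset.le_add_left _ _).trans (Multiset.le_add_right _ _)
          · rintro ⟨M', A⟩ hp ⟨M'', B⟩ hp' hAB
            rw [Finset.mem_coe, Finset.mem_filter] at hp hp'
            have h1 : A = B := Finset.val_injective hAB
            subst h1
            have h2 : M' + A.val + {X} = M'' + A.val + {X} := hp.2.trans hp'.2.symm
            rw [add_left_inj, add_left_inj] at h2
            rw [h2]
      _ ≤ Multiset.card (M.filter fun l => l.sum = s).powerset := Multiset.toFinset_card_le _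
      _ = 2 ^ Multiset.card (M.filter fun l => l.sum = s) := Multiset.card_powerset _
      _ ≤ 2 ^ (n / (s + 1)) := Nat.pow_le_pow_right (by norm_num) hcard

end Pool.SpU
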