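import Pool.Agent.SpU.Basic

/-!
# SpU/Split

`small M` = components with sum at most `T`, `big M` = the others, `core M` = the components of
`big M`, with the legs of length at most `K` deleted and three legs of length 1 added.

Proofs.  `big_card`: `card_mul_le` with `s = T` gives `card (big) * T ≤ n`.
`core_can`: clear.  `core_small`: let `S` = number of legs of `M` of length at most `2A`, `R = n/T`.
The legs longer than `2A` number at most `n/(2A)` (their lengths add up to at most `n`), so
`n < A * legs M ≤ A S + n/2`, i.e. `n < 2 A S`.  Short legs in `small M` number at most `size (small M)`,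
short legs in `big M` at most the sum of their lengths `Z`; and
`size (core M) = size (big M) - Z + 3 card (big M) ≤ size (big M) - Z + 3 R`, so
`size (core M) + S ≤ n + 3 R`.  As `12 A ≤ T`, `6 A R ≤ n/2`; multiply by `2A`:
`2A size(core) + n ≤ 2A n + n/2`.
-/

namespace Pool.SpU

open Finset

def small (T : ℕ) (M : Ty) : Ty := M.filter fun l => l.sum ≤ T

def big (T : ℕ) (M : Ty) : Ty := M.filter fun l => ¬ l.sum ≤ T

def core (T K : ℕ) (M : Ty) : Ty := (big T M).map fun l => l.filter (K < ·) + {1, 1, 1}

theorem small_add_big (T : ℕ) (M : Ty) : small T M + big T M = M :=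
  Multiset.filter_add_not _ _

theorem split_big_mul (T n : ℕ) (M : Ty) (hM : M ∈ Gen n) :
    Multiset.card (big T M) * T ≤ n := by
  have h1 : Multiset.card (big T M) * (T + 1) ≤ size (big T M) := by
    refine card_mul_le (big T M) T fun l hl => ?_
    have h2 := (Multiset.mem_filter.1 hl).2
    omega
  have h2 : size (big T M) ≤ size M := size_le_of_le _ _ (Multiset.filter_le _ _)
  have h3 : size M = n := hM.2
  have h4 : Multiset.card (big T M) * T ≤ Multiset.card (big T M) * (T + 1) :=
    Nat.mul_le_mul_left _ (Nat.le_succ T)
  omega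

theorem big_card (T n : ℕ) (hT : 0 < T) (M : Ty) (hM : M ∈ Gen n) :
    Multiset.card (big T M) ≤ n / T :=
  (Nat.le_div_iff_mul_le hT).2 (split_big_mul T n M hM)

theorem core_can (T K n : ℕ) (M : Ty) (hM : M ∈ Gen n) : core T K M ∈ Can (size (core T K M)) := by
  refine ⟨fun l' hl' => ?_, rfl⟩
  obtain ⟨l, hl, rfl⟩ := Multiset.mem_map.1 hl'
  have hlM : l ∈ M := (Multiset.mem_filter.1 hl).1
  constructor
  · rw [Multiset.card_add]
    simp
  · intro x hx
    rcases Multiset.mem_add.1 hx with h | h
    · exact hM.1 l hlM x (Multiset.mem_filter.1 h).1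
    · simp only [Multiset.insert_eq_cons, Multiset.mem_cons, Multiset.mem_singleton] at h
      omega

/-- the number of short parts and the sum of the long parts -/
theorem split_short (K : ℕ) (l : Multiset ℕ) (hl : ∀ x ∈ l, 1 ≤ x) :
    Multiset.card (l.filter (· ≤ K)) + (l.filter (K < ·)).sum ≤ l.sum := by
  have h1 : l.filter (· ≤ K) + l.filter (K < ·) = l := by
    have h2 : l.filter (K < ·) = l.filter (fun x => ¬ x ≤ K) :=
      Multiset.filter_congr fun x _ => by omega
    rw [h2]
    exact Multiset.filter_add_not _ _
  have h3 : l.sum = (l.filter (· ≤ K)).sum + (l.filter (K < ·)).sum := by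
    rw [← Multiset.sum_add, h1]
  have h4 : Multiset.card (l.filter (· ≤ K)) • 1 ≤ (l.filter (· ≤ K)).sum :=
    Multiset.card_nsmul_le_sum fun x hx => hl x (Multiset.mem_filter.1 hx).1
  rw [smul_eq_mul, mul_one] at h4
  omega

theorem split_card (K : ℕ) (l : Multiset ℕ) :
    Multiset.card l = Multiset.card (l.filter (· ≤ K)) + Multiset.card (l.filter (K < ·)) := by
  have h2 : l.filter (K < ·) = l.filter (fun x => ¬ x ≤ K) :=
    Multiset.filter_congr fun x _ => by omega
  rw [h2, ← Multiset.card_add, Multiset.filter_add_not]

theorem split_long (K : ℕ) (l : Multiset ℕ) :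
    K * Multiset.card (l.filter (K < ·)) ≤ (l.filter (K < ·)).sum := by
  have h4 : Multiset.card (l.filter (K < ·)) • K ≤ (l.filter (K < ·)).sum :=
    Multiset.card_nsmul_le_sum fun x hx => (Multiset.mem_filter.1 hx).2.le
  rw [smul_eq_mul, mul_comm] at h4
  exact h4

theorem core_small (T A n : ℕ) (hA : 1 ≤ A) (hT : 12 * A ≤ T) (M : Ty) (hM : M ∈ Gen n)
    (h : n < A * legs M) : 4 * A * size (core T (2 * A) M) + n ≤ 4 * A * n := by
  obtain ⟨hpos, hsize⟩ := hM
  -- number of short legs
  set s : Multiset ℕ → ℕ := fun l => Multiset.card (l.filter (· ≤ 2 * A)) with hs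
  set b : Multiset ℕ → ℕ := fun l => Multiset.card (l.filter (2 * A < ·)) with hb
  have hlegs : legs M = (M.map s).sum + (M.map b).sum := by
    unfold legs
    rw [← Multiset.sum_map_add]
    congr 1
    exact Multiset.map_congr rfl fun l _ => split_card (2 * A) l
  have hb' : 2 * A * (M.map b).sum ≤ n := by
    rw [← hsize, ← Multiset.sum_map_mul_left]
    unfold size
    refine Multiset.sum_map_le_sum_map _ _ fun l hl => ?_
    have h1 := split_long (2 * A) l
    have h2 := split_short (2 * A) l (hpos l hl)
    simp only [hb]
    omega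
  -- comparison
  have hsplit : (M.map s).sum = ((small T M).map s).sum + ((big T M).map s).sum := by
    rw [← Multiset.sum_add, ← Multiset.map_add, small_add_big]
  have hsz : size (small T M) + size (big T M) = n := by
    rw [← size_add, small_add_big, hsize]
  have h1 : ((small T M).map s).sum ≤ size (small T M) := by
    unfold size
    refine Multiset.sum_map_le_sum_map _ _ fun l hl => ?_
    have h2 := split_short (2 * A) l (hpos l (Multiset.mem_filter.1 hl).1)
    simp only [hs]
    omega
  have h2 : size (core T (2 * A) M) + ((big T M).map s).sum ≤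
      size (big T M) + 3 * Multiset.card (big T M) := by
    have e1 : size (core T (2 * A) M) =
        ((big T M).map fun l => (l.filter (2 * A < ·)).sum + 4).sum := by
      unfold size core
      rw [Multiset.map_map]
      congr 1
      refine Multiset.map_congr rfl fun l _ => ?_
      simp only [Function.comp_apply, Multiset.sum_add]
      simp
    have e2 : 3 * Multiset.card (big T M) = ((big T M).map fun _ => 3).sum := by
      rw [Multiset.map_const', Multiset.sum_replicate, smul_eq_mul, mul_comm]
    rw [e1, e2]
    unfold size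
    rw [← Multiset.sum_map_add, ← Multiset.sum_map_add]
    refine Multiset.sum_map_le_sum_map _ _ fun l hl => ?_
    have h3 := split_short (2 * A) l (hpos l (Multiset.mem_filter.1 hl).1)
    simp only [hs]
    omega
  have h3 := split_big_mul T n M ⟨hpos, hsize⟩
  have h4 : Multiset.card (big T M) * (12 * A) ≤ n :=
    (Nat.mul_le_mul_left _ hT).trans h3
  rw [hlegs] at h
  generalize (M.map s).sum = S at *
  generalize (M.map b).sum = Bg at *
  generalize Multiset.card (big T M) = R at *
  generalize size (core T (2 * A) M) = c at *
  have h5 : c + S ≤ n + 3 * R := by omega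
  have h6 : 2 * A * (c + S) ≤ 2 * A * (n + 3 * R) := Nat.mul_le_mul_left _ h5
  nlinarith

end Pool.SpU
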