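import Pool.Agent.SpU.Basic

/-!
# SpU/TySize

Size and number of legs of the type of a description, from `SpA.card_V`
(`card V = #roots + ∑ n i`).
-/

namespace Pool.SpU

open Finset Pool.SpA

variable {V : Type*} [DecidableEq V] {G : SimpleGraph V} {N : ℕ}

theorem ty_size [Fintype V] (L : Legs G N) : size (ty L) = Fintype.card V := by
  rw [card_V L]
  unfold size ty
  rw [Multiset.map_map]
  change ∑ c ∈ univ.image L.root, ((∑ i ∈ univ.filter (fun i => L.root i = c), L.n i) + 1) = _
  rw [sum_add_distrib, sum_const, smul_eq_mul, mul_one,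
    sum_fiberwise_of_maps_to (fun i _ => mem_image_of_mem L.root (mem_univ i)), add_comm]

theorem ty_legs (L : Legs G N) : legs (ty L) = N := by
  unfold legs ty
  rw [Multiset.map_map]
  have h1 : ∀ c : V, ((fun l : Multiset ℕ => Multiset.card l) ∘
      fun c => (univ.filter fun i => L.root i = c).val.map L.n) c =
        ∑ _i ∈ univ.filter (fun i => L.root i = c), 1 := by
    intro c
    rw [sum_const, smul_eq_mul, mul_one, Function.comp_apply, Multiset.card_map]
    rfl
  rw [Multiset.map_congr rfl fun c _ => h1 c]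
  change ∑ c ∈ univ.image L.root, ∑ _i ∈ univ.filter (fun i => L.root i = c), 1 = _
  rw [sum_fiberwise_of_maps_to (fun i _ => mem_image_of_mem L.root (mem_univ i))]
  simp

theorem ty_pos (L : Legs G N) : ∀ l ∈ ty L, ∀ x ∈ l, 1 ≤ x := by
  intro l hl x hx
  unfold ty at hl
  rw [Multiset.mem_map] at hl
  obtain ⟨c, -, rfl⟩ := hl
  rw [Multiset.mem_map] at hx
  obtain ⟨i, -, rfl⟩ := hx
  exact L.pos i

theorem ty_mem_gen [Fintype V] (L : Legs G N) : ty L ∈ Gen (Fintype.card V) :=
  ⟨ty_pos L, ty_size L⟩

end Pool.SpU
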