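import Pool.Agent.SpU.Split
import Pool.Agent.SpU.Attach
import Pool.Agent.SpU.FinTy

/-!
# SpU/Upper

The number of types with many legs.

Proof.  Map `M` to `core T (2A) M`; it is in `Can n'` with `4 A n' + n ≤ 4 A n` (so `n' ≤ n`).  For a
given core `C`, `M = small + big` is determined by `small T M` (a multiset with at most `n` elements of
the finite set of the `l` with positive parts and sum `≤ T`: at most `(n+1)^P` possibilities by
`ms_count`) and `big T M` (at most `choose` possibilities by `attach_count`, as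
`(big T M).map (filter (2A < ·))` is determined by `C`: `Multiset.map_map`,
adding `{1,1,1}` is injective).
-/

namespace Pool.SpU

open Finset

/-- the long legs of the big components can be read off the core -/
theorem upper_map_filter {T K : ℕ} {M C : Ty} (h : core T K M = C) :
    (big T M).map (fun l => l.filter (K < ·)) = C.map (fun l => l - {1, 1, 1}) := by
  subst h
  unfold core
  rw [Multiset.map_map]
  apply Multiset.map_congr rfl
  intro l _
  simp only [Function.comp_apply]
  exact (add_tsub_cancel_right _ _).symm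

theorem upper_small_le (T : ℕ) (M : Ty) : small T M ≤ M := Multiset.filter_le _ _

theorem upper_big_le (T : ℕ) (M : Ty) : big T M ≤ M := Multiset.filter_le _ _

/-- the number of types with a given core -/
theorem upper_fiber (A T n : ℕ) (hA : 1 ≤ A) (hT : 12 * A ≤ T) (C : Ty) :
    {M : Ty | M ∈ Gen n ∧ core T (2 * A) M = C}.ncard ≤
      (n + 1) ^ {l : Multiset ℕ | (∀ x ∈ l, 1 ≤ x) ∧ l.sum ≤ T}.ncard *
        (n + (n / T) * (2 * A)).choose ((n / T) * (2 * A)) := by
  classical
  have hfin := parts_finite T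
  have hcard : {l : Multiset ℕ | (∀ x ∈ l, 1 ≤ x) ∧ l.sum ≤ T}.ncard = hfin.toFinset.card :=
    Set.ncard_eq_toFinset_card _ hfin
  obtain ⟨h1, h2⟩ := ms_count hfin.toFinset n
  obtain ⟨h3, h4⟩ := attach_count (2 * A) (n / T) n (C.map (fun l => l - {1, 1, 1}))
  rw [hcard]
  refine le_trans ?_ (Nat.mul_le_mul h2 h4)
  rw [← Set.ncard_prod]
  refine Set.ncard_le_ncard_of_injOn (fun M => (small T M, big T M)) ?_ ?_ (h1.prod h3)
  · rintro M ⟨hM, hC⟩
    have hsize : size M = n := hM.2
    refine ⟨⟨?_, ?_⟩, ?_, ?_, ?_, ?_⟩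
    · intro l hl
      rw [Set.Finite.mem_toFinset]
      have hl' := Multiset.mem_filter.mp hl
      exact ⟨hM.1 l hl'.1, hl'.2⟩
    · calc Multiset.card (small T M) ≤ Multiset.card M :=
            Multiset.card_le_card (upper_small_le T M)
        _ ≤ size M := card_le_size M
        _ = n := hsize
    · exact upper_map_filter hC
    · exact big_card T n (by omega) M hM
    · intro l hl
      exact hM.1 l (Multiset.mem_of_le (upper_big_le T M) hl)
    · have hpos : ∀ l ∈ big T M, ∀ x ∈ l, 1 ≤ x := fun l hl =>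
        hM.1 l (Multiset.mem_of_le (upper_big_le T M) hl)
      calc legs (big T M) ≤ size (big T M) := legs_le_size _ hpos
        _ ≤ size M := size_le_of_le _ _ (upper_big_le T M)
        _ = n := hsize
  · intro M _ M' _ h
    have h' := Prod.mk.inj h
    rw [← small_add_big T M, ← small_add_big T M', h'.1, h'.2]

theorem upper (A T n : ℕ) (hA : 1 ≤ A) (hT : 12 * A ≤ T) :
    {M : Ty | M ∈ Gen n ∧ n < A * legs M}.ncard ≤
      (∑ n' ∈ (range (n + 1)).filter (fun n' => 4 * A * n' + n ≤ 4 * A * n), (Can n').ncard) *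
      ((n + 1) ^ {l : Multiset ℕ | (∀ x ∈ l, 1 ≤ x) ∧ l.sum ≤ T}.ncard *
        (n + (n / T) * (2 * A)).choose ((n / T) * (2 * A))) := by
  classical
  set I := (range (n + 1)).filter (fun n' => 4 * A * n' + n ≤ 4 * A * n) with hI
  set F : Finset Ty := I.biUnion (fun n' => (can_finite n').toFinset) with hF
  have hFcard : F.card ≤ ∑ n' ∈ I, (Can n').ncard := by
    refine le_trans Finset.card_biUnion_le ?_
    apply Finset.sum_le_sum
    intro n' _
    rw [Set.ncard_eq_toFinset_card _ (can_finite n')]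
  have hcover : {M : Ty | M ∈ Gen n ∧ n < A * legs M} ⊆
      ⋃ C ∈ F, {M : Ty | M ∈ Gen n ∧ core T (2 * A) M = C} := by
    rintro M ⟨hM, hL⟩
    simp only [Set.mem_iUnion, exists_prop]
    refine ⟨core T (2 * A) M, ?_, hM, rfl⟩
    have hc := core_can T (2 * A) n M hM
    have hs := core_small T A n hA hT M hM hL
    rw [hF, Finset.mem_biUnion]
    refine ⟨size (core T (2 * A) M), ?_, ?_⟩
    · rw [hI, Finset.mem_filter, Finset.mem_range]
      refine ⟨?_, hs⟩
      have h4 : 4 * A * size (core T (2 * A) M) ≤ 4 * A * n := by omega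
      have := Nat.le_of_mul_le_mul_left h4 (by omega)
      omega
    · rw [Set.Finite.mem_toFinset]
      exact hc
  have hfinU : (⋃ C ∈ F, {M : Ty | M ∈ Gen n ∧ core T (2 * A) M = C}).Finite :=
    (gen_finite n).subset (by
      intro M hM
      simp only [Set.mem_iUnion, exists_prop] at hM
      obtain ⟨_, _, h, _⟩ := hM
      exact h)
  calc {M : Ty | M ∈ Gen n ∧ n < A * legs M}.ncard
      ≤ (⋃ C ∈ F, {M : Ty | M ∈ Gen n ∧ core T (2 * A) M = C}).ncard :=
        Set.ncard_le_ncard hcover hfinU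
    _ ≤ ∑ C ∈ F, {M : Ty | M ∈ Gen n ∧ core T (2 * A) M = C}.ncard :=
        Finset.set_ncard_biUnion_le F _
    _ ≤ ∑ _C ∈ F, ((n + 1) ^ {l : Multiset ℕ | (∀ x ∈ l, 1 ≤ x) ∧ l.sum ≤ T}.ncard *
        (n + (n / T) * (2 * A)).choose ((n / T) * (2 * A))) :=
        Finset.sum_le_sum fun C _ => upper_fiber A T n hA hT C
    _ = F.card * ((n + 1) ^ {l : Multiset ℕ | (∀ x ∈ l, 1 ≤ x) ∧ l.sum ≤ T}.ncard *
        (n + (n / T) * (2 * A)).choose ((n / T) * (2 * A))) := by
        rw [Finset.sum_const, smul_eq_mul]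
    _ ≤ _ := Nat.mul_le_mul_right _ hFcard

end Pool.SpU
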